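import Pool.Agent.Work.MP_a98e4e_ag.E.Defs

/-! Kernel check: the dual basis for the form of `e_8`. -/

set_option linter.unusedSectionVars false

namespace Pool.Agent.Licci

set_option maxRecDepth 100000

/-- inverse Cartan matrix, row `q` -/
def icN (q : ℕ) : List ℤ :=
  ([[2, 3, 4, 5, 6, 4, 2, 3], [3, 6, 8, 10, 12, 8, 4, 6], [4, 8, 12, 15, 18, 12, 6, 9],
    [5, 10, 15, 20, 24, 16, 8, 12], [6, 12, 18, 24, 30, 20, 10, 15], [4, 8, 12, 16, 20, 14, 7, 10],
    [2, 4, 6, 8, 10, 7, 4, 5], [3, 6, 9, 12, 15, 10, 5, 8]] : List (List ℤ)).getD q []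

/-- dual basis, as sparse vectors -/
def dbN (i : ℕ) : List (ℕ × ℤ) :=
  bif Nat.blt i 240 then [(fnd (Nat.sub 1717986918 (cd i)), -1)]
  else (List.range 8).map (fun q => (240 + q, (icN (i - 240)).getD q 0))

/-- duality -/
def dbc (i j : ℕ) : Bool :=
  isz ((dbN i).foldr (fun p s => p.2 * kcN p.1 j + s) 0 - (bif Nat.beq i j then 1 else 0))

theorem dbc_all : (List.range 248).all (fun i => (List.range 248).all (fun j => dbc i j)) = true := by
  decide +kernel

theorem db_rng : (List.range 248).all (fun i => (dbN i).all (fun p => Nat.blt p.1 248)) = true := by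
  decide +kernel

end Pool.Agent.Licci
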