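import Pool.Agent.Work.MP_a98e4e_ag.E.KChk1
import Pool.Agent.Work.MP_a98e4e_ag.E.KChk2
import Pool.Agent.Work.MP_a98e4e_ag.E.KChk3

/-!
# LICCI, codimension 6: the invariant form of `e_8`

Bilinear, symmetric, invariant, unimodular; `60 kf x y` is the trace of `(ad x) (ad y)`; preserved by
automorphisms.
-/

set_option linter.unusedSectionVars false

namespace Pool.Agent.Licci

open scoped BigOperators

theorem kcN_symm {i j : ℕ} (hi : i < 248) (hj : j < 248) : kcN i j = kcN j i := by
  unfold kcN
  rcases lt_or_ge i 240 with h1 | h1 <;> rcases lt_or_ge j 240 with h2 | h2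
  · rw [blt_true h1, blt_true h2]
    simp only [cond_true]
    rw [show Nat.add (cd i) (cd j) = Nat.add (cd j) (cd i) from Nat.add_comm _ _]
  · rw [blt_true h1, blt_false h2]
    simp
  · rw [blt_false h1, blt_true h2]
    simp
  · rw [blt_false h1, blt_false h2]
    simp only [cond_false]
    have h : ∀ a < 8, ∀ b < 8, prN (gens.getD a 0) b = prN (gens.getD b 0) a := by decide +kernel
    exact h _ (by omega) _ (by omega)

theorem kcN_wt {i j : ℕ} (hi : i < 248) (hj : j < 248) (h : kcN i j ≠ 0) :
    cd i + cd j = off + off := by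
  unfold kcN at h
  rcases lt_or_ge i 240 with h1 | h1 <;> rcases lt_or_ge j 240 with h2 | h2
  · rw [blt_true h1, blt_true h2] at h
    simp only [cond_true] at h
    cases h3 : Nat.beq (Nat.add (cd i) (cd j)) 1145324612 with
    | true =>
      rw [← off2]
      simpa using h3
    | false => rw [h3] at h; simp at h
  · rw [blt_true h1, blt_false h2] at h
    simp at h
  · rw [blt_false h1, blt_true h2] at h
    simp at h
  · rw [cd_cartan h1 hi, cd_cartan h2 hj]

theorem kl_eq (L : List (ℕ × ℤ)) (k : ℕ) : kl L k = (L.map (fun p => p.2 * kcN p.1 k)).sum := by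
  induction L with
  | nil => rfl
  | cons p L ih =>
    rw [List.map_cons, List.sum_cons, ← ih]
    rfl

theorem sum_kl {i j : ℕ} (hi : i < 248) (hj : j < 248) (k : ℕ) :
    ∑ m : Fin 248, scN i j m * kcN m k = kl (sp i j) k := by
  rw [kl_eq]
  exact sum_cf (sp i j) (fun p hp => sp_rng hi hj hp) (fun m => kcN m k)

/-- invariance of the form, on basis vectors -/
theorem kc_inv (i j k : Fin 248) :
    ∑ m : Fin 248, scN i j m * kcN m k = ∑ m : Fin 248, scN j k m * kcN m i := by
  by_cases hw : cd i + cd j + cd k = off + off + off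
  · rw [sum_kl i.2 j.2, sum_kl j.2 k.2]
    have h := all_range (all_range ivc_all i.2) j.2
    unfold ivc at h
    simp only at h
    rcases lt_or_ge (k : ℕ) 240 with h1 | h1
    · have e : Nat.sub 2290649224 (Nat.add (cd i) (cd j)) = cd k + off := by
        change 2290649224 - (cd i + cd j) = _
        have : (2290649224 : ℕ) = off + off + off + off := rfl
        omega
      rw [e, fnd_cd h1, blt_true h1, cond_true] at h
      have := (isz_iff _).1 h
      omega
    · have e : Nat.sub 2290649224 (Nat.add (cd i) (cd j)) = 1145324612 := by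
        change 2290649224 - (cd i + cd j) = _
        rw [cd_cartan h1 k.2] at hw
        have h3 : (2290649224 : ℕ) = off + off + off + off := rfl
        have h4 : (1145324612 : ℕ) = off + off := rfl
        omega
      rw [e] at h
      have h5 : Nat.blt (fnd 1145324612) 240 = false := by decide +kernel
      rw [h5, cond_false] at h
      have h6 : Nat.beq 1145324612 1145324612 = true := by decide +kernel
      rw [h6, cond_true] at h
      have h7 := all_range h (i := (k : ℕ) - 240) (by omega)
      have h8 : 240 + ((k : ℕ) - 240) = k := by omega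
      rw [h8] at h7
      have := (isz_iff _).1 h7
      omega
  · have h1 : ∀ m : Fin 248, scN i j m * kcN m k = 0 := by
      intro m
      by_contra hne
      have h1 := scN_wt i.2 j.2 (left_ne_zero_of_mul hne)
      have h2 := kcN_wt m.2 k.2 (right_ne_zero_of_mul hne)
      omega
    have h2 : ∀ m : Fin 248, scN j k m * kcN m i = 0 := by
      intro m
      by_contra hne
      have h1 := scN_wt j.2 k.2 (left_ne_zero_of_mul hne)
      have h2 := kcN_wt m.2 i.2 (right_ne_zero_of_mul hne)
      omega
    rw [Finset.sum_congr rfl fun m _ => h1 m, Finset.sum_congr rfl fun m _ => h2 m]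

variable {A : Type*} [CommRing A]

theorem kf_def (x y : E8 A) : kf x y = ∑ i, ∑ j, (kc i j : A) * (x i * y j) := rfl

theorem kf_add_left (x x' y : E8 A) : kf (x + x') y = kf x y + kf x' y := by
  simp only [kf_def, Pi.add_apply, add_mul, mul_add, Finset.sum_add_distrib]

theorem kf_add_right (x y y' : E8 A) : kf x (y + y') = kf x y + kf x y' := by
  simp only [kf_def, Pi.add_apply, mul_add, Finset.sum_add_distrib]

theorem kf_smul_left (c : A) (x y : E8 A) : kf (c • x) y = c * kf x y := by
  simp only [kf_def, Pi.smul_apply, smul_eq_mul, Finset.mul_sum]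
  refine Finset.sum_congr rfl fun i _ => Finset.sum_congr rfl fun j _ => ?_
  ring

theorem kf_smul_right (c : A) (x y : E8 A) : kf x (c • y) = c * kf x y := by
  simp only [kf_def, Pi.smul_apply, smul_eq_mul, Finset.mul_sum]
  refine Finset.sum_congr rfl fun i _ => Finset.sum_congr rfl fun j _ => ?_
  ring

/-- the form as a bilinear map -/
def kfL : E8 A →ₗ[A] E8 A →ₗ[A] A :=
  LinearMap.mk₂ A kf kf_add_left kf_smul_left kf_add_right kf_smul_right

@[simp] theorem kfL_apply (x y : E8 A) : kfL x y = kf x y := rfl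

@[simp] theorem kf_zero_left (y : E8 A) : kf 0 y = 0 := by
  simpa using kf_smul_left (0 : A) 0 y

@[simp] theorem kf_zero_right (x : E8 A) : kf x 0 = 0 := by
  simpa using kf_smul_right (0 : A) x 0

theorem kf_neg_left (x y : E8 A) : kf (-x) y = - kf x y := by
  simpa using kf_smul_left (-1 : A) x y

theorem kf_neg_right (x y : E8 A) : kf x (-y) = - kf x y := by
  simpa using kf_smul_right (-1 : A) x y

theorem kf_sub_left (x x' y : E8 A) : kf (x - x') y = kf x y - kf x' y := by
  rw [sub_eq_add_neg, kf_add_left, kf_neg_left, sub_eq_add_neg]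

theorem kf_sub_right (x y y' : E8 A) : kf x (y - y') = kf x y - kf x y' := by
  rw [sub_eq_add_neg, kf_add_right, kf_neg_right, sub_eq_add_neg]

theorem kf_sum_left {ι : Type*} (s : Finset ι) (x : ι → E8 A) (y : E8 A) :
    kf (∑ i ∈ s, x i) y = ∑ i ∈ s, kf (x i) y := by
  have h := congrArg (fun f => f y) (map_sum (kfL (A := A)) x s)
  rw [LinearMap.sum_apply] at h
  exact h

theorem kf_sum_right {ι : Type*} (s : Finset ι) (x : E8 A) (y : ι → E8 A) :
    kf x (∑ i ∈ s, y i) = ∑ i ∈ s, kf x (y i) :=
  map_sum (kfL (A := A) x) y s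

theorem kf_eb_eb (i j : Fin 248) : kf (eb i : E8 A) (eb j) = (kc i j : A) := by
  simp [kf_def, eb_apply]

theorem kf_symm (x y : E8 A) : kf x y = kf y x := by
  rw [kf_def, kf_def, Finset.sum_comm]
  refine Finset.sum_congr rfl fun j _ => Finset.sum_congr rfl fun i _ => ?_
  rw [kc, kc, kcN_symm i.2 j.2, mul_comm (x i)]

theorem kf_br_eb (i j k : Fin 248) :
    kf (br (eb i : E8 A) (eb j)) (eb k) = ((∑ m : Fin 248, scN i j m * kcN m k : ℤ) : A) := by
  have : br (eb i : E8 A) (eb j) = ∑ m, (sc i j m : A) • (eb m : E8 A) := by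
    conv_lhs => rw [E8.eq_sum (br (eb i : E8 A) (eb j))]
    simp only [br_eb_eb]
  rw [this, kf_sum_left]
  simp only [kf_smul_left, kf_eb_eb]
  push_cast
  rfl

/-- the form is invariant -/
theorem kf_inv (x y z : E8 A) : kf (br x y) z = kf x (br y z) := by
  have h : ∀ i j k : Fin 248, kf (br (eb i : E8 A) (eb j)) (eb k) = kf (eb i) (br (eb j) (eb k)) := by
    intro i j k
    rw [kf_symm (eb i : E8 A), kf_br_eb, kf_br_eb, kc_inv i j k]
  conv_lhs => rw [E8.eq_sum x, E8.eq_sum y, E8.eq_sum z]
  conv_rhs => rw [E8.eq_sum x, E8.eq_sum y, E8.eq_sum z]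
  simp only [br_sum_left, br_sum_right, br_smul_left, br_smul_right, kf_sum_left, kf_sum_right,
    kf_smul_left, kf_smul_right, h]

/-- `ad x` is skew for the form -/
theorem kf_br_left (x y z : E8 A) : kf (br x y) z = - kf y (br x z) := by
  rw [br_skew x y, kf_neg_left, kf_inv]

/-- base change -/
theorem kf_map {A' : Type*} [CommRing A'] (φ : A →+* A') (x y : E8 A) :
    φ (kf x y) = kf (φ ∘ x) (φ ∘ y) := by
  simp only [Function.comp_apply, kf_def, map_sum, map_mul, map_intCast]

/-- dual basis -/
def db (i : Fin 248) : E8 A := ∑ m : Fin 248, (cf (dbN i) m : A) • eb m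

theorem kf_db (i j : Fin 248) : kf (db i : E8 A) (eb j) = if i = j then 1 else 0 := by
  have h := (isz_iff _).1 (all_range (all_range dbc_all i.2) j.2)
  have h1 : ∀ p ∈ dbN i, p.1 < 248 := by
    intro p hp
    have := all_range db_rng i.2
    rw [List.all_eq_true] at this
    have := this p hp
    simpa [Nat.blt_eq] using this
  have h2 := sum_cf (dbN i) h1 (fun m => kcN m j)
  have h3 : ∀ L : List (ℕ × ℤ), L.foldr (fun p s => p.2 * kcN p.1 j + s) 0 =
      (L.map (fun p => p.2 * kcN p.1 j)).sum := by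
    intro L
    induction L with
    | nil => rfl
    | cons p L ih => rw [List.map_cons, List.sum_cons, ← ih]; rfl
  rw [h3, ← h2] at h
  rw [db, kf_sum_left]
  simp only [kf_smul_left, kf_eb_eb]
  have h4 : (∑ m : Fin 248, (cf (dbN i) m : A) * (kc m j : A)) =
      ((∑ m : Fin 248, cf (dbN i) m * kcN m j : ℤ) : A) := by
    push_cast
    rfl
  rw [h4, sub_eq_zero.1 h]
  by_cases hij : i = j
  · subst hij
    have : Nat.beq (i : ℕ) i = true := by simp
    rw [this]
    simp
  · have : Nat.beq (i : ℕ) j = false := by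
      rw [Bool.eq_false_iff]
      intro h5
      exact hij (Fin.ext (by simpa using h5))
    rw [this, if_neg hij]
    simp

theorem kf_db_apply (i : Fin 248) (x : E8 A) : kf (db i) x = x i := by
  conv_lhs => rw [E8.eq_sum x, kf_sum_right]
  simp [kf_smul_right, kf_db]

/-- the form is nondegenerate -/
theorem kf_ext {x y : E8 A} (h : ∀ z, kf z x = kf z y) : x = y := by
  funext i
  rw [← kf_db_apply i x, ← kf_db_apply i y, h]

theorem kf_ext' {x y : E8 A} (h : ∀ z, kf x z = kf y z) : x = y :=
  kf_ext fun z => by rw [kf_symm z x, kf_symm z y, h]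

/-- the form is unimodular -/
theorem kf_perfect (φ : E8 A →ₗ[A] A) : ∃ x : E8 A, ∀ y, kf x y = φ y := by
  refine ⟨∑ i, φ (eb i) • db i, fun y => ?_⟩
  rw [kf_sum_left]
  simp only [kf_smul_left, kf_db_apply]
  conv_rhs => rw [E8.eq_sum y, map_sum]
  refine Finset.sum_congr rfl fun i _ => ?_
  rw [map_smul, smul_eq_mul, mul_comm]

theorem kf_db_sum (x : E8 A) : x = ∑ i, kf x (eb i) • (db i : E8 A) := by
  refine kf_ext' fun z => ?_
  rw [kf_sum_left]
  simp only [kf_smul_left, kf_db_apply]
  conv_lhs => rw [E8.eq_sum z, kf_sum_right]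
  refine Finset.sum_congr rfl fun i _ => ?_
  rw [kf_smul_right, mul_comm]

/-! ### trace -/

theorem foldr_range_sum (f : ℕ → ℤ) (n : ℕ) :
    (List.range n).foldr (fun k s => f k + s) 0 = ∑ k : Fin n, f k := by
  have h : ∀ (L : List ℕ), L.foldr (fun k s => f k + s) 0 = (L.map f).sum := by
    intro L
    induction L with
    | nil => rfl
    | cons a L ih => rw [List.map_cons, List.sum_cons, ← ih]; rfl
  rw [h, Fin.sum_univ_eq_sum_range f n, ← Finset.sum_map_toList]
  simp [Finset.sum, Finset.range, Multiset.range]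

/-- the trace of `(ad e_i) (ad e_j)` -/
theorem sum_tr (i j : Fin 248) :
    ∑ k : Fin 248, ∑ m : Fin 248, scN j k m * scN i m k = 60 * kcN i j := by
  by_cases hw : cd i + cd j = off + off
  · have h := all_range (all_range trc_all i.2) j.2
    unfold trc at h
    have e : Nat.beq (Nat.add (cd i) (cd j)) 1145324612 = true := by
      rw [off2]
      change Nat.beq (cd i + cd j) _ = true
      rw [hw]
      simp
    rw [e, cond_true] at h
    have h1 := (isz_iff _).1 h
    rw [trN, foldr_range_sum (fun k => cf (lm i (sp j k)) k)] at h1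
    rw [← sub_eq_zero, ← h1]
    congr 1
    refine Finset.sum_congr rfl fun k _ => ?_
    rw [cf_lm]
    exact sum_cf (sp j k) (fun p hp => sp_rng j.2 k.2 hp) (fun m => scN i m k)
  · have h1 : ∀ k m : Fin 248, scN j k m * scN i m k = 0 := by
      intro k m
      by_contra hne
      have h1 := scN_wt j.2 k.2 (left_ne_zero_of_mul hne)
      have h2 := scN_wt i.2 m.2 (right_ne_zero_of_mul hne)
      omega
    have h2 : kcN i j = 0 := by
      by_contra hne
      exact hw (kcN_wt i.2 j.2 hne)
    simp [h1, h2]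

/-- the trace of `(ad x) (ad y)` -/
theorem tr_eq_sum (f : E8 A →ₗ[A] E8 A) : LinearMap.trace A (E8 A) f = ∑ k, f (eb k) k := by
  rw [LinearMap.trace_eq_matrix_trace A (Pi.basisFun A (Fin 248)), Matrix.trace]
  refine Finset.sum_congr rfl fun k _ => ?_
  rw [Matrix.diag_apply, LinearMap.toMatrix_apply]
  simp [eb]

/-- the Killing form is `60` times the form -/
theorem killing (x y : E8 A) :
    LinearMap.trace A (E8 A) (brL x ∘ₗ brL y) = 60 * kf x y := by
  have h : ∀ i j : Fin 248, ∑ k : Fin 248, br (eb i : E8 A) (br (eb j) (eb k)) k =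
      60 * kf (eb i : E8 A) (eb j) := by
    intro i j
    rw [kf_eb_eb, kc]
    have h1 := congrArg (Int.cast : ℤ → A) (sum_tr i j)
    push_cast at h1
    rw [← h1]
    refine Finset.sum_congr rfl fun k _ => ?_
    rw [br_eb_br]
    push_cast
    rfl
  rw [tr_eq_sum]
  simp only [LinearMap.comp_apply, brL_apply]
  conv_lhs => rw [E8.eq_sum x, E8.eq_sum y]
  conv_rhs => rw [E8.eq_sum x, E8.eq_sum y]
  simp only [br_sum_left, br_sum_right, br_smul_left, br_smul_right, kf_sum_left, kf_sum_right,
    kf_smul_left, kf_smul_right, Finset.sum_apply, Pi.smul_apply, smul_eq_mul, Finset.mul_sum]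
  rw [Finset.sum_comm]
  refine Finset.sum_congr rfl fun i _ => ?_
  rw [Finset.sum_comm]
  refine Finset.sum_congr rfl fun j _ => ?_
  rw [← Finset.mul_sum, ← Finset.mul_sum, h]
  ring

/-- an automorphism as an equivalence -/
noncomputable def IsAut.equiv {k : E8 A →ₗ[A] E8 A} (h : IsAut k) : E8 A ≃ₗ[A] E8 A :=
  LinearEquiv.ofBijective k h.bij

theorem IsAut.kf_kf [Algebra ℚ A] {k : E8 A →ₗ[A] E8 A} (h : IsAut k) (x y : E8 A) :
    kf (k x) (k y) = kf x y := by
  have e : ∀ z : E8 A, brL (k z) = k ∘ₗ brL z ∘ₗ (h.equiv.symm : E8 A →ₗ[A] E8 A) := by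
    intro z
    refine LinearMap.ext fun u => ?_
    obtain ⟨v, rfl⟩ := h.bij.2 u
    have h1 : h.equiv.symm (k v) = v := by
      rw [LinearEquiv.symm_apply_eq]
      rfl
    simp only [LinearMap.comp_apply, LinearEquiv.coe_coe, brL_apply, h1]
    exact (h.map_br z v).symm
  have h2 : brL (k x) ∘ₗ brL (k y) =
      (h.equiv : E8 A →ₗ[A] E8 A) ∘ₗ (brL x ∘ₗ brL y) ∘ₗ (h.equiv.symm : E8 A →ₗ[A] E8 A) := by
    rw [e x, e y]
    refine LinearMap.ext fun u => ?_
    simp only [LinearMap.comp_apply, LinearEquiv.coe_coe]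
    have h1 : ∀ v, h.equiv.symm (k v) = v := by
      intro v
      rw [LinearEquiv.symm_apply_eq]
      rfl
    rw [h1]
    rfl
  have h3 : (60 : A) * kf (k x) (k y) = 60 * kf x y := by
    rw [← killing, ← killing, h2, ← LinearMap.comp_assoc]
    exact LinearMap.trace_conj' (brL x ∘ₗ brL y) h.equiv
  have h4 : (algebraMap ℚ A 60⁻¹) * (60 * kf (k x) (k y)) = (algebraMap ℚ A 60⁻¹) * (60 * kf x y) := by
    rw [h3]
  have h5 : (algebraMap ℚ A 60⁻¹) * 60 = 1 := by
    rw [← map_ofNat (algebraMap ℚ A) 60, ← map_mul]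
    norm_num
  rwa [← mul_assoc, ← mul_assoc, h5, one_mul, one_mul] at h4

end Pool.Agent.Licci
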