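import Pool.Agent.Work.MP_a98e4e_ag.E.KForm
import Pool.Agent.Work.MP_a98e4e_ag.XE.ConeAlg

/-!
# LICCI, codimension 6: the local projector onto `F1 p` and the dual families (E11, E12)

`p` is an extremal element of `e_8`.  The linear map `pj p w` maps `e_8` to `F1 p` and is
multiplication by `(p, w) ^ 2` on `F1 p`; its trace is `57 (p, w) ^ 2`.
-/

namespace Pool.Agent.Licci.DimE

open scoped BigOperators

section ring

variable {A : Type*} [CommRing A]

theorem br_self_dom [IsDomain A] [CharZero A] (x : E8 A) : br x x = 0 := by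
  funext i
  have h1 := congrFun (br_skew x x) i
  rw [Pi.neg_apply] at h1
  have h2 : 2 * br x x i = 0 := by linear_combination h1
  exact (mul_eq_zero.1 h2).resolve_left two_ne_zero

/-- the properties of `e_8` and of an extremal element, for `XE.ConeDat` -/
theorem coneDat [IsDomain A] [CharZero A] {p : E8 A} (hp : Cone p) :
    XE.ConeDat (brL (A := A)) (kfL (A := A)) p where
  skew := br_skew
  self := br_self_dom
  jac := jacobi
  inv := kf_inv
  sym := kf_symm
  two := by
    intro x y h
    funext i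
    have h1 := congrFun h i
    simp only [Pi.smul_apply, smul_eq_mul] at h1
    exact mul_left_cancel₀ two_ne_zero h1
  cone := hp

/-- the local projector -/
noncomputable def pj (p w : E8 A) : E8 A →ₗ[A] E8 A :=
  brL p ∘ₗ (kf p w • brL w - (LinearMap.toSpanSingleton A (E8 A) w) ∘ₗ kfL p ∘ₗ brL w) -
    kf p w • ((LinearMap.toSpanSingleton A (E8 A) p) ∘ₗ kfL w)

theorem pj_apply (p w y : E8 A) : pj p w y =
    br p (kf p w • br w y - kf p (br w y) • w) - (kf p w * kf w y) • p := by
  simp only [pj, LinearMap.sub_apply, LinearMap.comp_apply, LinearMap.smul_apply, brL_apply,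
    kfL_apply, LinearMap.toSpanSingleton_apply, smul_smul]

theorem tr_rank_one (v : E8 A) (φ : E8 A →ₗ[A] A) :
    LinearMap.trace A (E8 A) ((LinearMap.toSpanSingleton A (E8 A) v) ∘ₗ φ) = φ v := by
  rw [tr_eq_sum]
  conv_rhs => rw [E8.eq_sum v, map_sum]
  refine Finset.sum_congr rfl fun k _ => ?_
  rw [LinearMap.comp_apply, LinearMap.toSpanSingleton_apply, Pi.smul_apply, smul_eq_mul, map_smul,
    smul_eq_mul, mul_comm]

theorem trace_pj {p : E8 A} (hp : Cone p) (w : E8 A) :
    LinearMap.trace A (E8 A) (pj p w) = 57 * kf p w ^ 2 := by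
  have h1 : pj p w = kf p w • (brL p ∘ₗ brL w) -
      (LinearMap.toSpanSingleton A (E8 A) (br p w)) ∘ₗ kfL p ∘ₗ brL w -
      kf p w • ((LinearMap.toSpanSingleton A (E8 A) p) ∘ₗ kfL w) := by
    refine LinearMap.ext fun y => ?_
    simp only [pj, LinearMap.sub_apply, LinearMap.comp_apply, LinearMap.smul_apply, brL_apply,
      kfL_apply, LinearMap.toSpanSingleton_apply, br_sub_right, br_smul_right]
  have h2 : kf p (br w (br p w)) = 2 * kf p w ^ 2 := by
    rw [← kf_inv, kf_symm, kf_br_left, hp w, kf_smul_right, kf_symm w p]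
    ring
  rw [h1, map_sub, map_sub, map_smul, killing, tr_rank_one, map_smul, tr_rank_one]
  simp only [LinearMap.comp_apply, brL_apply, kfL_apply, smul_eq_mul]
  rw [h2, kf_symm w p]
  ring

theorem mem_F0_of {p w : E8 A} (c : A) (h : br w p = c • p) : w ∈ F0 p := by
  intro i j
  rw [h]
  simp only [Pi.smul_apply, smul_eq_mul]
  ring

theorem F0_smul {p w : E8 A} (hw : w ∈ F0 p) (j : Fin 248) :
    p j • br p w = (br p w j) • p := by
  funext i
  have := hw i j
  rw [br_skew w p, Pi.neg_apply, Pi.neg_apply] at this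
  simp only [Pi.smul_apply, smul_eq_mul]
  linear_combination -this

end ring

section domain

variable {A : Type*} [CommRing A] [IsDomain A] [CharZero A] {p : E8 A}

omit [IsDomain A] [CharZero A] in
theorem exists_coord_ne (hp0 : p ≠ 0) : ∃ j, p j ≠ 0 := by
  by_contra h
  push Not at h
  exact hp0 (funext h)

omit [CharZero A] in
/-- (E5) -/
theorem br_mem_F1 (hp0 : p ≠ 0) {z : E8 A} (hz : kf p z = 0) : br p z ∈ F1 p := by
  intro w hw
  obtain ⟨j, hj⟩ := exists_coord_ne hp0
  apply mul_left_cancel₀ hj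
  rw [mul_zero, kf_br_left, mul_neg, ← kf_smul_right, F0_smul hw j, kf_smul_right, kf_symm z p,
    hz, mul_zero, neg_zero]

theorem kf_F0 (hp : Cone p) (hp0 : p ≠ 0) {w : E8 A} (hw : w ∈ F0 p) : kf p w = 0 := by
  obtain ⟨j, hj⟩ := exists_coord_ne hp0
  have h1 : br p (p j • br p w) = 0 := by
    rw [F0_smul hw j, br_smul_right, br_self_dom, smul_zero]
  rw [br_smul_right, hp w, smul_smul] at h1
  have h2 := congrFun h1 j
  simp only [Pi.smul_apply, Pi.zero_apply, smul_eq_mul] at h2
  have h3 : (2 * (p j * p j)) * kf p w = 0 := by linear_combination -h2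
  exact (mul_eq_zero.1 h3).resolve_left (mul_ne_zero two_ne_zero (mul_ne_zero hj hj))

theorem p_mem_F1 (hp : Cone p) (hp0 : p ≠ 0) : p ∈ F1 p := fun _ hw => kf_F0 hp hp0 hw

omit [IsDomain A] [CharZero A] in
theorem br_mem_F0 (hp : Cone p) (w : E8 A) : br p w ∈ F0 p := by
  refine mem_F0_of (2 * kf p w) ?_
  rw [br_skew, hp w, neg_smul, neg_neg]

omit [IsDomain A] [CharZero A] in
theorem kf_br_F1 (hp : Cone p) {x : E8 A} (hx : x ∈ F1 p) (w : E8 A) : kf p (br w x) = 0 := by
  rw [← kf_inv, kf_symm]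
  exact hx _ (br_mem_F0 hp w)

omit [IsDomain A] [CharZero A] in
theorem br_F1 (hp : Cone p) {x : E8 A} (hx : x ∈ F1 p) : br p x = 0 := by
  refine kf_ext' fun z => ?_
  rw [kf_br_left, kf_symm x, kf_symm 0 z]
  have h0 : kf z (0 : E8 A) = 0 := by simpa using kf_smul_right (0 : A) z 0
  rw [h0, kf_symm, hx _ (br_mem_F0 hp z), neg_zero]

/-- recovery of the elements of `F1` -/
theorem F1_recover (hp : Cone p) {x : E8 A} (hx : x ∈ F1 p) (w : E8 A) :
    kf p w • x = br p (br w x) - kf w x • p := by
  refine kf_ext' fun v => ?_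
  -- the element of `F0`
  have h1 : kf p w • v - br w (br p v) + kf p v • w ∈ F0 p := by
    refine mem_F0_of (-(kf p (br w v))) ?_
    have h2 := (coneDat hp).premet' w v
    simp only [brL_apply, kfL_apply] at h2
    rw [br_skew, br_add_right, br_sub_right, br_smul_right, br_smul_right, h2]
    module
  have h3 := hx _ h1
  rw [kf_add_right, kf_sub_right, kf_smul_right, kf_smul_right] at h3
  have h4 : kf x (br w (br p v)) = kf (br p (br w x)) v := by
    rw [kf_br_left, kf_br_left, neg_neg]
  rw [kf_smul_left, kf_sub_left, kf_smul_left, ← h4, kf_symm w x]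
  linear_combination h3

/-- (E12) the values of the local projector -/
theorem pj_mem_F1 (hp : Cone p) (hp0 : p ≠ 0) (w y : E8 A) : pj p w y ∈ F1 p := by
  have h1 : kf p (kf p w • br w y - kf p (br w y) • w) = 0 := by
    rw [kf_sub_right, kf_smul_right, kf_smul_right]
    ring
  rw [pj_apply]
  intro v hv
  rw [kf_sub_left, kf_smul_left, br_mem_F1 hp0 h1 v hv, p_mem_F1 hp hp0 v hv]
  ring

/-- (E12) the local projector on `F1` -/
theorem pj_F1 (hp : Cone p) (w : E8 A) {x : E8 A} (hx : x ∈ F1 p) :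
    pj p w x = kf p w ^ 2 • x := by
  rw [pj_apply, kf_br_F1 hp hx w, zero_smul, sub_zero, br_smul_right, mul_smul, ← smul_sub,
    ← F1_recover hp hx w, smul_smul, sq]

/-- (E12) -/
theorem local_projector (hp : Cone p) (hp0 : p ≠ 0) (j : Fin 248) :
    ∃ P : E8 A →ₗ[A] E8 A, (∀ y, P y ∈ F1 p) ∧ ∀ x ∈ F1 p, P x = p j ^ 2 • x := by
  refine ⟨pj p (db j), pj_mem_F1 hp hp0 (db j), fun x hx => ?_⟩
  rw [pj_F1 hp (db j) hx, kf_symm, kf_db_apply]

end domain

section field

variable {K : Type*} [Field K] [CharZero K] {p : E8 K}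

/-- `F1 p` as a submodule -/
def F1s (p : E8 K) : Submodule K (E8 K) where
  carrier := F1 p
  add_mem' {x y} hx hy w hw := by rw [kf_add_left, hx w hw, hy w hw, add_zero]
  zero_mem' w _ := by simpa using kf_smul_left (0 : K) 0 w
  smul_mem' c x hx w hw := by rw [kf_smul_left, hx w hw, mul_zero]

theorem finrank_F1s (hp : Cone p) (hp0 : p ≠ 0) : Module.finrank K (F1s p) = 57 := by
  obtain ⟨j, hj⟩ := exists_coord_ne hp0
  have hf : kf p (db j) = p j := by rw [kf_symm, kf_db_apply]
  have h1 : LinearMap.IsProj (F1s p) ((p j ^ 2)⁻¹ • pj p (db j)) := by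
    constructor
    · intro x
      exact (F1s p).smul_mem _ (pj_mem_F1 hp hp0 (db j) x)
    · intro x hx
      rw [LinearMap.smul_apply, pj_F1 hp (db j) hx, hf, smul_smul,
        inv_mul_cancel₀ (pow_ne_zero 2 hj), one_smul]
  have h2 := h1.trace
  rw [map_smul, trace_pj hp, hf, smul_eq_mul] at h2
  have h3 : (57 : K) = (Module.finrank K (F1s p) : K) := by
    rw [← h2]
    field_simp
  exact_mod_cast h3.symm

/-- the dual families over a field -/
theorem exists_dual_field (hp : Cone p) (hp0 : p ≠ 0) :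
    ∃ (x w : Fin 56 → E8 K) (w0 : E8 K), (∀ i, x i ∈ F1 p) ∧ (∀ i, kf p (w i) = 0) ∧
      (∀ i j, kf (w i) (x j) = if i = j then 1 else 0) ∧
      ∀ y ∈ F1 p, y = ∑ i, kf (w i) y • x i + kf w0 y • p := by
  let pF : F1s p := ⟨p, p_mem_F1 hp hp0⟩
  have hpF : pF ≠ 0 := fun h => hp0 (congrArg Subtype.val h)
  let Q := F1s p ⧸ (K ∙ pF)
  have hQ : Module.finrank K Q = 56 := by
    have h1 := Submodule.finrank_quotient_add_finrank (K ∙ pF)
    rw [finrank_span_singleton hpF, finrank_F1s hp hp0] at h1
    exact Nat.succ_injective h1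
  let bQ : Module.Basis (Fin 56) K Q := (Module.finBasis K Q).reindex (finCongr hQ)
  choose x hx using fun i => Submodule.mkQ_surjective (K ∙ pF) (bQ i)
  -- coordinate functionals
  have hext : ∀ φ : F1s p →ₗ[K] K, ∃ w : E8 K, ∀ y : F1s p, kf w y = φ y := by
    intro φ
    obtain ⟨ψ, hψ⟩ := LinearMap.exists_extend φ
    obtain ⟨w, hw⟩ := kf_perfect ψ
    exact ⟨w, fun y => by rw [hw, ← hψ]; rfl⟩
  choose w hw using fun i => hext (bQ.coord i ∘ₗ (K ∙ pF).mkQ)
  obtain ⟨ψ, hψ⟩ := LinearMap.exists_leftInverse_of_injective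
    (LinearMap.toSpanSingleton K (F1s p) pF) (LinearMap.ker_toSpanSingleton K hpF)
  have hψ1 : ψ pF = 1 := by
    have h1 := congrArg (fun f => f (1 : K)) hψ
    simpa using h1
  obtain ⟨w0, hw0⟩ := hext (ψ - ∑ i, ψ (x i) • (bQ.coord i ∘ₗ (K ∙ pF).mkQ))
  have hpQ : (K ∙ pF).mkQ pF = 0 := by
    rw [Submodule.mkQ_apply, Submodule.Quotient.mk_eq_zero]
    exact Submodule.mem_span_singleton_self pF
  refine ⟨fun i => x i, w, w0, fun i => (x i).2, fun i => ?_, fun i j => ?_, fun y hy => ?_⟩
  · have h1 := hw i pF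
    rw [LinearMap.comp_apply, hpQ, map_zero] at h1
    rw [kf_symm]
    exact h1
  · rw [hw, LinearMap.comp_apply, hx, Module.Basis.coord_apply, Module.Basis.repr_self,
      Finsupp.single_apply]
    by_cases h : i = j
    · rw [if_pos h, if_pos h.symm]
    · rw [if_neg h, if_neg (Ne.symm h)]
  · let yF : F1s p := ⟨y, hy⟩
    have h1 : (K ∙ pF).mkQ (yF - ∑ i, kf (w i) y • x i) = 0 := by
      rw [map_sub, map_sum]
      simp only [map_smul, hx]
      have h2 : ∀ i, kf (w i) y = bQ.repr ((K ∙ pF).mkQ yF) i := fun i => hw i yF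
      simp only [h2, bQ.sum_repr, sub_self]
    rw [Submodule.mkQ_apply, Submodule.Quotient.mk_eq_zero, Submodule.mem_span_singleton] at h1
    obtain ⟨c, hc⟩ := h1
    have h3 : kf w0 y = c := by
      have h4 := congrArg ψ hc
      rw [map_smul, hψ1, smul_eq_mul, mul_one, map_sub, map_sum] at h4
      have h5 := hw0 yF
      rw [h4]
      refine h5.trans ?_
      rw [LinearMap.sub_apply, LinearMap.sum_apply]
      congr 1
      refine Finset.sum_congr rfl fun i _ => ?_
      rw [LinearMap.smul_apply, map_smul, smul_eq_mul, smul_eq_mul, ← hw i yF, mul_comm]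
    rw [h3]
    have h6 := congrArg Subtype.val hc
    have h7 : ((yF - ∑ i, kf (w i) y • x i : F1s p) : E8 K) =
        y - ∑ i, kf (w i) y • (x i : E8 K) := by
      rw [Submodule.coe_sub, Submodule.coe_sum]
      rfl
    rw [h7] at h6
    have h8 : c • p = y - ∑ i, kf (w i) y • (x i : E8 K) := h6
    rw [h8]
    abel

end field

section domain2

theorem cone_map {A A' : Type*} [CommRing A] [CommRing A'] (φ : A →+* A') {p : E8 A}
    (hp : Cone p) : Cone (φ ∘ p) := by
  have h1 : brL (φ ∘ p) ∘ₗ brL (φ ∘ p) =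
      (-2 : A') • ((LinearMap.toSpanSingleton A' (E8 A') (φ ∘ p)) ∘ₗ kfL (φ ∘ p)) := by
    refine E8.hom_ext fun i => ?_
    have he : (eb i : E8 A') = φ ∘ (eb i : E8 A) := by
      funext j
      simp only [eb_apply, Function.comp_apply]
      split_ifs <;> simp
    rw [LinearMap.comp_apply, brL_apply, brL_apply, LinearMap.smul_apply, LinearMap.comp_apply,
      kfL_apply, LinearMap.toSpanSingleton_apply, he, ← br_map, ← br_map, hp, ← kf_map]
    funext j
    simp only [Function.comp_apply, Pi.smul_apply, smul_eq_mul, map_mul, map_neg, map_ofNat]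
    ring
  intro y
  have h2 := congrArg (fun f => f y) h1
  simp only [LinearMap.comp_apply, brL_apply, LinearMap.smul_apply, kfL_apply,
    LinearMap.toSpanSingleton_apply, smul_smul] at h2
  rw [h2]
  congr 1
  ring

variable {R : Type*} [CommRing R] [IsDomain R] {p : E8 R}

theorem F0_map {K : Type*} [Field K] [Algebra R K] [IsFractionRing R K] {w : E8 R} :
    (algebraMap R K ∘ w) ∈ F0 (algebraMap R K ∘ p) ↔ w ∈ F0 p := by
  have hinj := IsFractionRing.injective R K
  constructor
  · intro h i j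
    apply hinj
    have h1 := h i j
    rw [← br_map] at h1
    simpa only [Function.comp_apply, map_mul] using h1
  · intro h i j
    rw [← br_map]
    have h1 := congrArg (algebraMap R K) (h i j)
    simpa only [Function.comp_apply, map_mul] using h1

theorem F1_map {K : Type*} [Field K] [Algebra R K] [IsFractionRing R K] {x : E8 R} :
    (algebraMap R K ∘ x) ∈ F1 (algebraMap R K ∘ p) ↔ x ∈ F1 p := by
  have hinj := IsFractionRing.injective R K
  constructor
  · intro h w hw
    apply hinj
    rw [kf_map, h _ (F0_map.2 hw), map_zero]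
  · intro h w hw
    obtain ⟨b, hb⟩ := IsLocalization.exist_integer_multiples_of_finite (nonZeroDivisors R) w
    choose w' hw' using hb
    have hb0 : algebraMap R K (b : R) ≠ 0 := by
      rw [Ne, IsFractionRing.to_map_eq_zero_iff]
      exact nonZeroDivisors.ne_zero b.2
    have h1 : (algebraMap R K ∘ w') = (algebraMap R K (b : R)) • w := by
      funext i
      rw [Function.comp_apply, hw', Pi.smul_apply, Algebra.smul_def, smul_eq_mul]
    have h2 : w' ∈ F0 p := by
      rw [← F0_map (K := K), h1]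
      intro i j
      rw [br_smul_left, Pi.smul_apply, Pi.smul_apply, smul_eq_mul, smul_eq_mul, mul_assoc,
        mul_assoc, hw i j]
    have h3 : kf (algebraMap R K ∘ x) (algebraMap R K ∘ w') = 0 := by
      rw [← kf_map, h w' h2, map_zero]
    rw [h1, kf_smul_right] at h3
    exact (mul_eq_zero.1 h3).resolve_left hb0

/-- (E11) the dual families -/
theorem exists_dual_families [CharZero R] (hp : Cone p) (hp0 : p ≠ 0) :
    ∃ (c : R) (x w : Fin 56 → E8 R) (w0 : E8 R), c ≠ 0 ∧ (∀ i, x i ∈ F1 p) ∧
      (∀ i, kf p (w i) = 0) ∧ (∀ i j, kf (w i) (x j) = if i = j then c else 0) ∧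
      ∀ y ∈ F1 p, c • y = ∑ i, kf (w i) y • x i + kf w0 y • p := by
  let K := FractionRing R
  have hinj := IsFractionRing.injective R K
  haveI : CharZero K := charZero_of_injective_algebraMap hinj
  let P : E8 K := algebraMap R K ∘ p
  have hP : Cone P := cone_map (algebraMap R K) hp
  have hP0 : P ≠ 0 := by
    intro h
    apply hp0
    funext i
    apply hinj
    rw [Pi.zero_apply, map_zero]
    exact congrFun h i
  obtain ⟨x, w, w0, hx, hwp, hwx, hy⟩ := exists_dual_field hP hP0
  obtain ⟨b, hb⟩ := IsLocalization.exist_integer_multiples_of_finite (nonZeroDivisors R)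
    (Sum.elim (fun q : Fin 56 × Fin 248 => x q.1 q.2)
      (Sum.elim (fun q : Fin 56 × Fin 248 => w q.1 q.2) (fun q : Fin 248 => w0 q)))
  set β : K := algebraMap R K (b : R) with hβ
  have hb0 : (b : R) ≠ 0 := nonZeroDivisors.ne_zero b.2
  have hX : ∀ i, ∃ X : E8 R, algebraMap R K ∘ X = β • x i := by
    intro i
    choose X hX using fun j => hb (Sum.inl (i, j))
    refine ⟨X, funext fun j => ?_⟩
    rw [Function.comp_apply, hX, Pi.smul_apply, Algebra.smul_def, smul_eq_mul]
    rfl
  have hW : ∀ i, ∃ W : E8 R, algebraMap R K ∘ W = β • w i := by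
    intro i
    choose X hX using fun j => hb (Sum.inr (Sum.inl (i, j)))
    refine ⟨X, funext fun j => ?_⟩
    rw [Function.comp_apply, hX, Pi.smul_apply, Algebra.smul_def, smul_eq_mul]
    rfl
  have hW0 : ∃ W : E8 R, algebraMap R K ∘ W = β • w0 := by
    choose X hX using fun j => hb (Sum.inr (Sum.inr j))
    refine ⟨X, funext fun j => ?_⟩
    rw [Function.comp_apply, hX, Pi.smul_apply, Algebra.smul_def, smul_eq_mul]
    rfl
  choose X hX using hX
  choose W hW using hW
  obtain ⟨W0, hW0⟩ := hW0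
  refine ⟨(b : R) * b, X, W, (b : R) • W0, mul_ne_zero hb0 hb0, fun i => ?_, fun i => ?_,
    fun i j => ?_, fun y hyF => ?_⟩
  · rw [← F1_map (K := K), hX]
    exact (F1s P).smul_mem _ (hx i)
  · apply hinj
    rw [kf_map, hW, kf_smul_right, map_zero]
    show β * kf P (w i) = 0
    rw [hwp, mul_zero]
  · apply hinj
    rw [kf_map, hW, hX, kf_smul_left, kf_smul_right, hwx]
    split_ifs <;> simp [hβ]
  · have h1 := hy _ (F1_map.2 hyF)
    funext k
    apply hinj
    have h2 := congrFun h1 k
    have h3 : ∀ i, algebraMap R K (kf (W i) y) = β * kf (w i) (algebraMap R K ∘ y) := by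
      intro i
      rw [kf_map, hW, kf_smul_left]
    have h4 : algebraMap R K (kf W0 y) = β * kf w0 (algebraMap R K ∘ y) := by
      rw [kf_map, hW0, kf_smul_left]
    have h5 : ∀ i, algebraMap R K (X i k) = β * x i k := by
      intro i
      have := congrFun (hX i) k
      simpa using this
    simp only [Pi.smul_apply, Pi.add_apply, Finset.sum_apply, smul_eq_mul, kf_smul_left, map_mul,
      map_add, map_sum, h3, h4, h5]
    simp only [Function.comp_apply, Pi.smul_apply, Pi.add_apply, Finset.sum_apply,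
      smul_eq_mul] at h2
    rw [← hβ]
    conv_lhs => rw [h2]
    rw [mul_add, Finset.mul_sum]
    congr 1
    · refine Finset.sum_congr rfl fun i _ => ?_
      ring
    · show β * β * (kf w0 (algebraMap R K ∘ y) * algebraMap R K (p k)) = _
      ring

end domain2

end Pool.Agent.Licci.DimE
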