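import Pool.Agent.Work.MP_a98e4e_ag.E.KForm

/-!
# LICCI, codimension 6: the `sl_2` of two opposite extremal elements of `e_8`
-/

set_option linter.unusedSectionVars false

namespace Pool.Agent.Licci

open scoped BigOperators

variable {A : Type*} [CommRing A]

theorem br_br_skew (x y z : E8 A) : br (br x y) z = br x (br y z) - br y (br x z) := by
  rw [jacobi x y z]
  abel

/-- twice the identity for `(ad p) (ad e) (ad p)` -/
theorem Cone.two_PEP {p : E8 A} (hp : Cone p) (e u : E8 A) :
    (2 : A) • br p (br e (br p u)) =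
      (2 : A) • ((-kf p (br e u)) • p + (-kf p u) • br e p + kf p e • br p u) := by
  have h1 : br (br p (br p e)) u = (-(2 * kf p e)) • br p u := by rw [hp e, br_smul_left]
  rw [br_br_skew p (br p e) u, br_br_skew p e u, br_br_skew p e (br p u), br_sub_right,
    hp (br e u), hp u, br_smul_right] at h1
  have h2 : (2 : A) • br p (br e (br p u)) = (-(2 * kf p (br e u))) • p +
      (-(2 * kf p u)) • br e p - (-(2 * kf p e)) • br p u := by
    rw [← h1, two_smul]
    abel
  rw [h2]
  module

section rat

variable [Algebra ℚ A]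

theorem smul_two_cancel {x y : E8 A} (h : (2 : A) • x = (2 : A) • y) : x = y := by
  have h3 : (algebraMap ℚ A 2⁻¹ : A) • ((2 : A) • x) = (algebraMap ℚ A 2⁻¹ : A) • ((2 : A) • y) := by
    rw [h]
  rwa [smul_smul, smul_smul, ← map_ofNat (algebraMap ℚ A) 2, ← map_mul,
    inv_mul_cancel₀ (by norm_num : (2 : ℚ) ≠ 0), map_one, one_smul, one_smul] at h3

theorem smul_nat_cancel {n : ℕ} (hn : n ≠ 0) {x : E8 A} (h : (n : A) • x = 0) : x = 0 := by
  have h3 : (algebraMap ℚ A (n : ℚ)⁻¹ : A) • ((n : A) • x) = 0 := by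
    rw [h, smul_zero]
  rwa [smul_smul, ← map_natCast (algebraMap ℚ A) n, ← map_mul,
    inv_mul_cancel₀ (by exact_mod_cast hn : (n : ℚ) ≠ 0), map_one, one_smul] at h3

theorem nat_cancel {n : ℕ} (hn : n ≠ 0) {x : A} (h : (n : A) * x = 0) : x = 0 := by
  have h3 : (algebraMap ℚ A (n : ℚ)⁻¹ : A) * ((n : A) * x) = 0 := by
    rw [h, mul_zero]
  rwa [← mul_assoc, ← map_natCast (algebraMap ℚ A) n, ← map_mul,
    inv_mul_cancel₀ (by exact_mod_cast hn : (n : ℚ) ≠ 0), map_one, one_mul] at h3

/-- `(ad p) (ad e) (ad p)` -/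
theorem Cone.PEP {p : E8 A} (hp : Cone p) (e u : E8 A) :
    br p (br e (br p u)) = (-kf p (br e u)) • p + (-kf p u) • br e p + kf p e • br p u :=
  smul_two_cancel (hp.two_PEP e u)

variable {p w : E8 A}

theorem Pair.symm (h : Pair p w) : Pair w p := ⟨h.cw, h.cp, by rw [kf_symm]; exact h.one⟩

theorem Pair.br_h_p (h : Pair p w) : br (br p w) p = (2 : A) • p := by
  rw [br_skew, h.cp w, h.one, ← neg_smul]
  congr 1
  ring

theorem Pair.br_h_w (h : Pair p w) : br (br p w) w = (-2 : A) • w := by
  have := h.symm.br_h_p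
  rw [br_skew p w, br_neg_left, this, ← neg_smul]

theorem Pair.kf_h_h (h : Pair p w) : kf (br p w) (br p w) = (2 : A) := by
  rw [kf_inv p w, br_skew w, kf_neg_right, h.br_h_w, kf_smul_right, h.one]
  ring

/-- eigenspaces for different eigenvalues are orthogonal unless the sum is zero -/
theorem kf_eigen {h x y : E8 A} {a b : A} (hx : br h x = a • x) (hy : br h y = b • y) :
    (a + b) * kf x y = 0 := by
  have h1 : kf (br h x) y = - kf x (br h y) := kf_br_left h x y
  rw [hx, hy, kf_smul_left, kf_smul_right] at h1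
  rw [add_mul, h1]
  ring

theorem br_eigen {h x y : E8 A} {a b : A} (hx : br h x = a • x) (hy : br h y = b • y) :
    br h (br x y) = (a + b) • br x y := by
  rw [jacobi, hx, hy, br_smul_left, br_smul_right, add_smul]

/-- the eigenspace for the eigenvalue `2` is `A p` -/
theorem Pair.eigen_two (h : Pair p w) {x : E8 A} (hx : br (br p w) x = (2 : A) • x) :
    x = kf w x • p := by
  have hpx : kf p x = 0 := by
    have := kf_eigen h.br_h_p hx
    have h4 : (2 + 2 : A) = ((4 : ℕ) : A) := by norm_num
    rw [h4] at this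
    exact nat_cancel (by norm_num) this
  have hhh : br (br p w) (br p w) = (0 : A) • br p w := by rw [br_self, zero_smul]
  have hhx : kf (br p w) x = 0 := by
    have := kf_eigen hhh hx
    have h4 : (0 + 2 : A) = ((2 : ℕ) : A) := by norm_num
    rw [h4] at this
    exact nat_cancel (by norm_num) this
  have hbp : br p x = 0 := by
    have h1 := h.cp.PEP w x
    rw [hpx, ← kf_inv p w x, hhx, h.one, neg_zero, zero_smul, zero_smul, zero_add, zero_add,
      one_smul] at h1
    have h2 := br_br_skew p w (br p x)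
    rw [h.cp x, hpx, mul_zero, neg_zero, zero_smul, br_zero_right, sub_zero, h1,
      br_eigen h.br_h_p hx] at h2
    have h3 : ((3 : ℕ) : A) • br p x = 0 := by
      have h4 : (2 + 2 : A) • br p x - br p x = 0 := by rw [h2, sub_self]
      rw [← h4]
      push_cast
      module
    exact smul_nat_cancel (by norm_num) h3
  have hwx : br p (br w x) = (2 : A) • x := by
    have h1 := br_br_skew p w x
    rw [hbp, br_zero_right, sub_zero, hx] at h1
    exact h1.symm
  have hpwx : br (br p w) (br w x) = 0 := by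
    rw [br_eigen h.br_h_w hx]
    have : (-2 + 2 : A) = 0 := by ring
    rw [this, zero_smul]
  have h1 : br p (br w (br w x)) = (2 : A) • br w x := by
    have h2 := br_br_skew p w (br w x)
    rw [hpwx, hwx, br_smul_right] at h2
    exact (sub_eq_zero.1 h2.symm)
  have h2 : br w (br w x) = (-(2 * kf w x)) • w := h.cw x
  have h3 : br p (br p (br w (br w x))) = ((4 : ℕ) : A) • x := by
    rw [h1, br_smul_right, hwx, smul_smul]
    congr 1
    push_cast
    ring
  rw [h2, br_smul_right, br_smul_right, h.cp w, h.one, smul_smul] at h3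
  have h4 : ((4 : ℕ) : A) • (x - kf w x • p) = 0 := by
    rw [smul_sub, ← h3, smul_smul, ← sub_smul]
    have : -(2 * kf w x) * -(2 * 1) - ((4 : ℕ) : A) * kf w x = 0 := by
      push_cast
      ring
    rw [this, zero_smul]
  exact sub_eq_zero.1 (smul_nat_cancel (by norm_num) h4)

end rat

end Pool.Agent.Licci
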