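import Pool.Agent.Work.MP_a98e4e_ag.E.Tr0
import Pool.Agent.Work.MP_a98e4e_ag.E.Pair

/-!
# LICCI, codimension 6: a pair is conjugate to the standard pair of the chart

If `Pair p (c • wq q)`, there is an automorphism of `e_8` fixing `c • wq q` which maps
`p (ix q) • eb (ix q)` to `p`.
-/

set_option linter.unusedSectionVars false

namespace Pool.Agent.Licci

open scoped BigOperators

/-- the extreme weights, and the form on the lowest vectors -/
def thk (q m : ℕ) : Bool :=
  (bif Nat.beq (dg m q) 4 then Nat.beq m q else true) &&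
    (bif Nat.beq (dg m q) 0 then Nat.beq m (232 + q) else true) &&
      isz (kcN (232 + q) m + bif Nat.beq m q then 1 else 0)

theorem thk_all : (List.range 8).all (fun q => (List.range 248).all (thk q)) = true := by
  decide +kernel

theorem thk_wt : (List.range 8).all (fun q => Nat.beq (dg q q) 4 &&
    Nat.beq (dg (232 + q) q) 0) = true := by
  decide +kernel

theorem thk_spec (q : Fin 8) (m : Fin 248) : (wtg q m = 2 → m = ix q) ∧
    (wtg q m = -2 → m = ix (232 + q)) ∧ kc (ix (232 + q)) m = if m = ix q then -1 else 0 := by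
  have hq := q.2
  have h := all_range (all_range thk_all q.2) m.2
  rw [thk, Bool.and_eq_true, Bool.and_eq_true] at h
  obtain ⟨⟨h1, h2⟩, h3⟩ := h
  refine ⟨fun hw => ?_, fun hw => ?_, ?_⟩
  · have h4 : Nat.beq (dg m q) 4 = true := by
      rw [Nat.beq_eq]
      rw [wtg, wtN] at hw
      omega
    rw [h4, cond_true, Nat.beq_eq] at h1
    exact Fin.ext (by rw [h1, t_ix_val (by omega)])
  · have h4 : Nat.beq (dg m q) 0 = true := by
      rw [Nat.beq_eq]
      rw [wtg, wtN] at hw
      omega
    rw [h4, cond_true, Nat.beq_eq] at h2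
    exact Fin.ext (by rw [h2, t_ix_val (by omega)])
  · rw [isz_iff] at h3
    rw [kc, t_ix_val (by omega)]
    by_cases hm : m = ix q
    · have h4 : Nat.beq m q = true := by
        rw [Nat.beq_eq, hm, t_ix_val (by omega)]
      rw [h4, cond_true] at h3
      rw [if_pos hm]
      omega
    · have h4 : Nat.beq m q = false := by
        rw [Bool.eq_false_iff]
        intro h5
        rw [Nat.beq_eq] at h5
        exact hm (Fin.ext (by rw [h5, t_ix_val (by omega)]))
      rw [h4, cond_false] at h3
      rw [if_neg hm]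
      omega

theorem wtg_top (q : Fin 8) : wtg q (ix q) = 2 := by
  have hq := q.2
  have h := all_range thk_wt q.2
  rw [Bool.and_eq_true, Nat.beq_eq, Nat.beq_eq] at h
  rw [wtg, wtN, t_ix_val (by omega), h.1]
  rfl

theorem wtg_bot (q : Fin 8) : wtg q (ix (232 + q)) = -2 := by
  have hq := q.2
  have h := all_range thk_wt q.2
  rw [Bool.and_eq_true, Nat.beq_eq, Nat.beq_eq] at h
  rw [wtg, wtN, t_ix_val (by omega), h.2]
  rfl

section

variable {A : Type*} [CommRing A]

/-- pairing with the lowest vector -/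
theorem kf_wq (q : Fin 8) (y : E8 A) : kf (wq q) y = y (ix q) := by
  rw [wq, kf_neg_left, t_kf_eb, Finset.sum_eq_single (ix q)]
  · rw [(thk_spec q (ix q)).2.2, if_pos rfl]
    simp
  · intro j _ hj
    rw [(thk_spec q j).2.2, if_neg hj, Int.cast_zero, zero_mul]
  · intro h
    exact absurd (Finset.mem_univ _) h

theorem le_wq (q : Fin 8) (c : A) : Le (wtg q) (-2) (c • wq q : E8 A) := by
  intro m hm
  have h1 : m ≠ ix (232 + q) := by
    rintro rfl
    rw [wtg_bot] at hm
    exact absurd hm (lt_irrefl _)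
  rw [Pi.smul_apply, wq, Pi.neg_apply, eb_apply, if_neg h1, neg_zero, smul_zero]

/-- degrees below the range -/
theorem t_le_zero {q : Fin 8} {x : E8 A} (h : Le (wtg q) (-3) x) : x = 0 := by
  funext m
  exact h m (by have := wtg_ge q m; omega)

theorem t_le_add {d : Fin 248 → ℤ} {k : ℤ} {x y : E8 A} (hx : Le d k x) (hy : Le d k y) :
    Le d k (x + y) := fun m hm => by
  rw [Pi.add_apply, hx m hm, hy m hm, add_zero]

theorem t_le_smul {d : Fin 248 → ℤ} {k : ℤ} (c : A) {x : E8 A} (hx : Le d k x) :
    Le d k (c • x) := fun m hm => by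
  rw [Pi.smul_apply, hx m hm, smul_zero]

theorem t_le_mono {d : Fin 248 → ℤ} {k l : ℤ} (hkl : k ≤ l) {x : E8 A} (hx : Le d k x) :
    Le d l x := fun m hm => hx m (lt_of_le_of_lt hkl hm)

end

section

variable {A : Type*} [CommRing A] [Algebra ℚ A]

/-- an integer different from zero is a unit -/
theorem t_int_cancel {n : ℤ} (hn : n ≠ 0) {x : A} (h : (n : A) * x = 0) : x = 0 := by
  have h1 : (algebraMap ℚ A (n : ℚ)⁻¹) * ((n : A) * x) = 0 := by rw [h, mul_zero]
  have h2 : (algebraMap ℚ A (n : ℚ)⁻¹) * (n : A) = 1 := by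
    rw [← map_intCast (algebraMap ℚ A), ← map_mul, inv_mul_cancel₀ (by exact_mod_cast hn),
      map_one]
  rwa [← mul_assoc, h2, one_mul] at h1

theorem ex_of_br {x Y Z : E8 A} (h1 : br x Y = Z) (h2 : br x Z = 0) : ex x Y = Y + Z := by
  have h3 : ∀ n : ℕ, ((brL x) ^ (n + 2)) Y = 0 := by
    intro n
    rw [pow_add, pow_two, Module.End.mul_apply, Module.End.mul_apply, brL_apply, brL_apply, h1, h2,
      map_zero]
  rw [ex_apply, Finset.sum_range_succ', Finset.sum_range_succ']
  have h4 : (∑ k ∈ Finset.range 5, algebraMap ℚ A (((k + 1 + 1).factorial : ℚ)⁻¹) •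
      ((brL x) ^ (k + 1 + 1)) Y) = 0 := Finset.sum_eq_zero fun k _ => by rw [h3, smul_zero]
  rw [h4, zero_add]
  simp [h1, add_comm]

theorem ex_of_br' {x Y : E8 A} (h1 : br x Y = 0) : ex x Y = Y := by
  rw [ex_of_br h1 (br_zero_right x), add_zero]

/-- conjugation to the standard pair -/
theorem exists_theta {q : Fin 8} {p : E8 A} {c : A} (h : Pair p (c • wq q)) :
    ∃ θ : E8 A →ₗ[A] E8 A, IsAut θ ∧ θ (c • wq q) = c • wq q ∧
      θ (p (ix q) • eb (ix q)) = p := by
  set w : E8 A := c • wq q with hw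
  have hc : c * p (ix q) = 1 := by
    have := h.one
    rwa [hw, kf_smul_right, kf_symm, kf_wq] at this
  set p0 : E8 A := p (ix q) • eb (ix q) with hp0
  have h0 : br p0 w = hq q := by
    rw [hp0, hw, br_smul_left, br_smul_right, smul_smul, mul_comm, hc, one_smul]
    rfl
  set u : E8 A := br p w - hq q with hu
  have hu' : Le (wtg q) (-1) u := by
    have h1 : u = br (p - p0) w := by rw [hu, br_sub_left, h0]
    rw [h1]
    have h2 : Le (wtg q) 1 (p - p0) := by
      intro m hm
      have h3 : m = ix q := (thk_spec q m).1 (by have := wtg_le q m; omega)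
      rw [h3, hp0, Pi.sub_apply, Pi.smul_apply, eb_apply, if_pos rfl, smul_eq_mul, mul_one,
        sub_self]
    exact Le.br (fun i j k h => sc_wtg q h) h2 (le_wq q c)
  set u2 : E8 A := fun m => if wtg q m = -2 then u m else 0 with hu2
  have hu2' : Le (wtg q) (-2) u2 := by
    intro m hm
    rw [hu2]
    exact if_neg (by omega)
  set n : E8 A := u - (algebraMap ℚ A 2⁻¹) • u2 with hn
  have hn' : Le (wtg q) (-1) n := by
    rw [hn, sub_eq_add_neg, ← neg_smul]
    exact t_le_add hu' (t_le_mono (by norm_num) (t_le_smul _ hu2'))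
  have hnil : (brL n) ^ 7 = 0 := ad_nil_wt' q hn'
  have hhalf : (algebraMap ℚ A 2⁻¹) * 2 = 1 := by
    rw [← map_ofNat (algebraMap ℚ A) 2, ← map_mul]
    norm_num
  have e1 : br n (hq q) = u := by
    rw [br_skew]
    funext m
    rw [Pi.neg_apply, br_hq, hn, Pi.sub_apply, Pi.smul_apply, smul_eq_mul, hu2]
    change -((wtg q m : A) * (u m - (algebraMap ℚ A) 2⁻¹ * (if wtg q m = -2 then u m else 0))) = u m
    by_cases h1 : wtg q m = -2
    · rw [if_pos h1, h1]
      push_cast
      linear_combination (-(u m)) * hhalf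
    · rw [if_neg h1, mul_zero, sub_zero]
      by_cases h2 : wtg q m = -1
      · rw [h2]
        push_cast
        ring
      · have h3 : u m = 0 := hu' m (by have := wtg_ge q m; omega)
        rw [h3, mul_zero, neg_zero]
  have e2 : br n u = 0 := by
    rw [hn, br_sub_left, br_self, br_smul_left]
    have h1 : Le (wtg q) (-2 + -1) (br u2 u) := Le.br (fun i j k h => sc_wtg q h) hu2' hu'
    rw [t_le_zero h1, smul_zero, sub_zero]
  have e3 : br n w = 0 := by
    have h1 : Le (wtg q) (-1 + -2) (br n w) := Le.br (fun i j k h => sc_wtg q h) hn' (le_wq q c)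
    exact t_le_zero h1
  have e4 : ex n (hq q) = br p w := by
    rw [ex_of_br e1 e2, hu, add_sub_cancel]
  have e5 : ex n w = w := ex_of_br' e3
  have haut := ex_isAut hnil
  refine ⟨ex n, haut, e5, ?_⟩
  set p' : E8 A := ex (-n) p with hp'
  have e6 : ex n p' = p := ex_ex_neg hnil p
  have e7 : br (hq q) p' = (2 : A) • p' := by
    apply haut.bij.1
    rw [haut.map_br, e4, e6, map_smul, e6, h.br_h_p]
  have e8 : p' = p' (ix q) • eb (ix q) := by
    funext m
    rw [Pi.smul_apply, eb_apply, smul_eq_mul]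
    by_cases h1 : m = ix q
    · rw [if_pos h1, h1, mul_one]
    · rw [if_neg h1, mul_zero]
      have h2 := congrFun e7 m
      rw [br_hq, Pi.smul_apply, smul_eq_mul] at h2
      refine t_int_cancel (n := wtg q m - 2) (fun h3 => h1 ((thk_spec q m).1 (by omega))) ?_
      push_cast
      linear_combination h2
  have e9 : kf p' w = 1 := by
    rw [← haut.kf_kf, e6, e5, h.one]
  have e10 : p' (ix q) = p (ix q) := by
    rw [hw, kf_smul_right, kf_symm, kf_wq] at e9
    linear_combination (p (ix q)) * e9 - (p' (ix q)) * hc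
  rw [hp0, ← e10, ← e8, e6]

end

end Pool.Agent.Licci
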