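import Pool.Agent.Work.MP_a98e4e_ag.E.Trace
import Pool.Agent.Work.MP_a98e4e_ag.E.Theta
import Pool.Agent.Work.MP_a98e4e_ag.E.Dim

/-!
# LICCI, codimension 6: the trace identity at an arbitrary extremal element
-/

set_option linter.unusedSectionVars false

namespace Pool.Agent.Licci

open scoped BigOperators Matrix

section form

variable {A : Type*} [CommRing A]

theorem kf_eq_dot (x y : E8 A) :
    kf x y = x ⬝ᵥ ((Matrix.of fun i j => (kc i j : A)) *ᵥ y) := by
  rw [kf_def, dotProduct]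
  refine Finset.sum_congr rfl fun i _ => ?_
  rw [Matrix.mulVec, dotProduct, Finset.mul_sum]
  refine Finset.sum_congr rfl fun j _ => ?_
  rw [Matrix.of_apply]
  ring

theorem exists_kc_inv : ∃ kI : Matrix (Fin 248) (Fin 248) A,
    (Matrix.of fun i j => (kc i j : A)) * kI = 1 ∧ kI * (Matrix.of fun i j => (kc i j : A)) = 1 := by
  have h : (Matrix.of fun i m => (cf (dbN (i : Fin 248)) (m : Fin 248) : A)) *
      (Matrix.of fun i j => (kc i j : A)) = 1 := by
    ext i j
    rw [Matrix.mul_apply, Matrix.one_apply, ← kf_db i j, db, kf_sum_left]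
    refine Finset.sum_congr rfl fun m _ => ?_
    rw [kf_smul_left, kf_eb_eb, Matrix.of_apply, Matrix.of_apply]
  exact ⟨_, mul_eq_one_comm.1 h, h⟩

theorem kc_transpose : (Matrix.of fun i j => (kc i j : A)).transpose =
    (Matrix.of fun i j => (kc i j : A)) := by
  ext i j
  rw [Matrix.transpose_apply, Matrix.of_apply, Matrix.of_apply, kc, kc, kcN_symm j.2 i.2]

end form

section field

variable {K : Type*} [Field K] [CharZero K] {P : E8 K} {q : Fin 8} {c c' : K}

theorem F0_exists (hc : c * c' = 1) {w : E8 K} (hw : w ∈ F0 (c' • eb (ix q) : E8 K)) :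
    ∃ χ : K, br w (c' • eb (ix q)) = χ • (c' • eb (ix q)) := by
  have h := F0_smul hw (ix q)
  have h4 : (c' • eb (ix q) : E8 K) (ix q) = c' := by
    rw [Pi.smul_apply, eb_apply, if_pos rfl, smul_eq_mul, mul_one]
  rw [h4] at h
  refine ⟨c * br w (c' • eb (ix q)) (ix q), ?_⟩
  rw [mul_smul, ← h, smul_smul, hc, one_smul]

/-- the trace identity for the transported basis -/
theorem trace_theta (hc : c * c' = 1) {θ : E8 K →ₗ[K] E8 K} (hθ : IsAut θ)
    (hP : θ (c' • eb (ix q)) = P) {u v : E8 K} {χ χ' : K} (hu : br u P = χ • P)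
    (hv : br v P = χ' • P) :
    (∑ k with wtg q k = 1, kf (θ (db k)) (br v (br u (θ (eb k))))) =
      12 * kf u v + 8 * χ * χ' := by
  obtain ⟨u', rfl⟩ := hθ.bij.2 u
  obtain ⟨v', rfl⟩ := hθ.bij.2 v
  have hu' : br u' (c' • eb (ix q)) = χ • (c' • eb (ix q)) := by
    apply hθ.bij.1
    rw [hθ.map_br, hP, hu, map_smul, hP]
  have hv' : br v' (c' • eb (ix q)) = χ' • (c' • eb (ix q)) := by
    apply hθ.bij.1
    rw [hθ.map_br, hP, hv, map_smul, hP]
  rw [hθ.kf_kf, ← trace_base hc hu' hv']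
  refine Finset.sum_congr rfl fun k _ => ?_
  rw [← hθ.map_br, ← hθ.map_br, hθ.kf_kf, kf_db_apply]

/-- expansion in the transported basis -/
theorem expand_theta (hc : c * c' = 1) {θ : E8 K →ₗ[K] E8 K} (hθ : IsAut θ)
    (hP : θ (c' • eb (ix q)) = P) {y : E8 K} (hy : y ∈ F1 P) :
    ∃ r : K, y = (∑ k with wtg q k = 1, kf (θ (db k)) y • θ (eb k)) + r • P := by
  obtain ⟨y', rfl⟩ := hθ.bij.2 y
  have hy' : y' ∈ F1 (c' • eb (ix q) : E8 K) := by
    intro w hw
    obtain ⟨χ, hχ⟩ := F0_exists hc hw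
    rw [← hθ.kf_kf]
    refine hy _ (F0_of_smul (c := χ) ?_)
    rw [← hP, ← hθ.map_br, hχ, map_smul]
  obtain ⟨r, hr⟩ := F1_base_expand hc hy'
  refine ⟨r, ?_⟩
  have h1 : θ y' = θ ((∑ k with wtg q k = 1, y' k • eb k) + r • (c' • eb (ix q))) := by
    rw [← hr]
  rw [map_add, map_sum, map_smul, hP] at h1
  rw [h1]
  congr 1
  refine Finset.sum_congr rfl fun k _ => ?_
  rw [← h1, map_smul, hθ.kf_kf, kf_db_apply]

theorem eb_mem_F1_theta (hc : c * c' = 1) (hPr : Pair P (c • wq q)) {θ : E8 K →ₗ[K] E8 K}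
    (hθ : IsAut θ) (hw : θ (c • wq q) = c • wq q)
    (hP : θ (c' • eb (ix q)) = P) {k : Fin 248} (hk : wtg q k = 1) : θ (eb k) ∈ F1 P := by
  refine hPr.mem_F1_one ?_
  have h1 : br P (c • wq q) = θ (hq q) := by
    rw [← br_base (q := q) hc, hθ.map_br, hP, hw]
  rw [h1, ← hθ.map_br, br_hq_eb, hk, Int.cast_one, one_smul]

theorem kf_db_theta (hθ : E8 K →ₗ[K] E8 K) (h : IsAut hθ)
    (hP : hθ (c' • eb (ix q)) = P) {k : Fin 248} (hk : wtg q k = 1) : kf (hθ (db k)) P = 0 := by
  rw [← hP, h.kf_kf, kf_db_apply, Pi.smul_apply, eb_apply, if_neg, smul_zero]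
  intro h1
  rw [h1, wtg_ix] at hk
  omega

/-- the trace identity for arbitrary dual families over a field -/
theorem trace_field {ι : Type*} [Fintype ι] (hcone : Cone P) (ht : P (ix q) ≠ 0)
    {x w : ι → E8 K} {d : K} (hx : ∀ i, x i ∈ F1 P) (hwp : ∀ i, kf P (w i) = 0)
    (hspan : ∀ y ∈ F1 P, ∃ r : K, d • y = ∑ i, kf (w i) y • x i + r • P)
    {u v : E8 K} {χ χ' : K} (hu : br u P = χ • P) (hv : br v P = χ' • P) :
    ∑ i, kf (w i) (br v (br u (x i))) = d * (12 * kf u v + 8 * χ * χ') := by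
  set c : K := (P (ix q))⁻¹ with hcdef
  have hc : c * P (ix q) = 1 := inv_mul_cancel₀ ht
  have hPr : Pair P (c • wq q) := by
    refine ⟨hcone, fun y => ?_, ?_⟩
    · rw [br_smul_left, br_smul_left, br_smul_right, cone_wq q y, kf_smul_left, smul_smul,
        smul_smul, smul_smul]
      congr 1
      ring
    · rw [kf_smul_right, kf_wq', hc]
  obtain ⟨θ, hθ, hw, hP⟩ := exists_theta hPr
  have hmem : ∀ k, wtg q k = 1 → θ (eb k) ∈ F1 P := fun k hk =>
    eb_mem_F1_theta hc hPr hθ hw hP hk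
  have hdb : ∀ k, wtg q k = 1 → kf (θ (db k)) P = 0 := fun k hk =>
    kf_db_theta θ hθ hP hk
  rw [← trace_theta hc hθ hP hu hv]
  set T : E8 K → E8 K := fun z => br v (br u z) with hT
  have hTadd : ∀ a b, T (a + b) = T a + T b := fun a b => by
    simp only [hT, br_add_right]
  have hTsmul : ∀ (s : K) a, T (s • a) = s • T a := fun s a => by
    simp only [hT, br_smul_right]
  have hTsum : ∀ (s : Finset (Fin 248)) (f : Fin 248 → E8 K), T (∑ k ∈ s, f k) = ∑ k ∈ s, T (f k) :=
    fun s f => by simp only [hT, br_sum_right]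
  have hTP : ∃ s : K, T P = s • P := by
    refine ⟨χ * χ', ?_⟩
    simp only [hT]
    rw [hu, br_smul_right, hv, smul_smul]
  have hF0 : ∀ {u : E8 K} {χ : K}, br u P = χ • P → ∀ z ∈ F1 P, br u z ∈ F1 P := by
    intro u χ hu z hz y hy
    rw [kf_br_left, hz, neg_zero]
    have hy' : ∃ s : K, br y P = s • P := by
      have h := F0_smul hy (ix q)
      refine ⟨c * br y P (ix q), ?_⟩
      rw [mul_smul, ← h, smul_smul, hc, one_smul]
    obtain ⟨s, hs⟩ := hy'
    refine F0_of_smul (c := 0) ?_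
    rw [br_br_skew, hs, br_smul_right, hu, br_smul_right, hs, smul_smul, smul_smul, mul_comm s χ,
      sub_self, zero_smul]
  have hTF : ∀ z ∈ F1 P, T z ∈ F1 P := fun z hz => hF0 hv _ (hF0 hu _ hz)
  obtain ⟨s, hs⟩ := hTP
  -- each x i in the transported basis
  have h1 : ∀ i, T (x i) = (∑ k with wtg q k = 1, kf (θ (db k)) (x i) • T (θ (eb k))) +
      (kf (c • wq q) (x i - ∑ k with wtg q k = 1, kf (θ (db k)) (x i) • θ (eb k)) * s) • P := by
    intro i
    obtain ⟨r, hr⟩ := expand_theta hc hθ hP (hx i)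
    have e : x i - ∑ k with wtg q k = 1, kf (θ (db k)) (x i) • θ (eb k) = r • P := by
      rw [sub_eq_iff_eq_add, add_comm]
      exact hr
    rw [e, kf_smul_right, kf_symm, hPr.one, mul_one]
    conv_lhs => rw [hr]
    rw [hTadd, hTsum, hTsmul, hs, smul_smul]
    simp only [hTsmul]
  have h2 : ∀ k, wtg q k = 1 → ∀ i, kf (w i) (T (θ (eb k))) =
      ∑ l with wtg q l = 1, kf (θ (db l)) (T (θ (eb k))) * kf (w i) (θ (eb l)) := by
    intro k hk i
    obtain ⟨r, hr⟩ := expand_theta hc hθ hP (hTF _ (hmem k hk))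
    have h3 : kf (w i) P = 0 := by rw [kf_symm, hwp]
    conv_lhs => rw [hr]
    rw [kf_add_right, kf_smul_right, h3, mul_zero, add_zero, kf_sum_right]
    simp only [kf_smul_right]
  have h3 : ∀ k l, wtg q k = 1 → wtg q l = 1 →
      ∑ i, kf (θ (db k)) (x i) * kf (w i) (θ (eb l)) = if k = l then d else 0 := by
    intro k l hk hl
    obtain ⟨r, hr⟩ := hspan _ (hmem l hl)
    have h4 := congrArg (fun z => kf (θ (db k)) z) hr
    simp only [kf_smul_right, kf_add_right, kf_sum_right, hdb k hk, mul_zero, add_zero,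
      hθ.kf_kf, kf_db_apply] at h4
    rw [eb_apply] at h4
    have h5 : (∑ i, kf (θ (db k)) (x i) * kf (w i) (θ (eb l))) =
        ∑ i, kf (w i) (θ (eb l)) * kf (θ (db k)) (x i) :=
      Finset.sum_congr rfl fun i _ => mul_comm _ _
    rw [h5, ← h4]
    split_ifs <;> simp
  have h4 : ∀ i, kf (w i) (T (x i)) = ∑ k with wtg q k = 1, ∑ l with wtg q l = 1,
      kf (θ (db l)) (T (θ (eb k))) * (kf (θ (db k)) (x i) * kf (w i) (θ (eb l))) := by
    intro i
    have h5 : kf (w i) P = 0 := by rw [kf_symm, hwp]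
    rw [h1 i, kf_add_right, kf_smul_right, h5, mul_zero, add_zero, kf_sum_right]
    refine Finset.sum_congr rfl fun k hk => ?_
    rw [kf_smul_right, h2 k (Finset.mem_filter.1 hk).2 i, Finset.mul_sum]
    refine Finset.sum_congr rfl fun l _ => ?_
    ring
  rw [Finset.sum_congr rfl fun i _ => h4 i, Finset.sum_comm, Finset.mul_sum]
  refine Finset.sum_congr rfl fun k hk => ?_
  rw [Finset.sum_comm]
  have h6 : ∀ l ∈ Finset.univ.filter (fun l => wtg q l = 1),
      ∑ i, kf (θ (db l)) (T (θ (eb k))) * (kf (θ (db k)) (x i) * kf (w i) (θ (eb l))) =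
        if k = l then d * kf (θ (db l)) (T (θ (eb k))) else 0 := by
    intro l hl
    rw [← Finset.mul_sum, h3 k l (Finset.mem_filter.1 hk).2 (Finset.mem_filter.1 hl).2]
    split_ifs
    · ring
    · ring
  rw [Finset.sum_congr rfl h6, Finset.sum_ite_eq, if_pos hk]

end field

section domain

variable {R : Type*} [CommRing R] [IsDomain R] [CharZero R] {p : E8 R}

/-- (E10) the trace identity for dual families over a domain -/
theorem trace_identity {ι : Type*} [Fintype ι] (hcone : Cone p) (ht : ∃ q : Fin 8, p (ix q) ≠ 0)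
    {x w : ι → E8 R} {d : R} (hx : ∀ i, x i ∈ F1 p) (hwp : ∀ i, kf p (w i) = 0)
    (hspan : ∀ y ∈ F1 p, ∃ r : R, d • y = ∑ i, kf (w i) y • x i + r • p)
    {u v : E8 R} {χ χ' : R} (hu : br u p = χ • p) (hv : br v p = χ' • p) :
    ∑ i, kf (w i) (br v (br u (x i))) = d * (12 * kf u v + 8 * χ * χ') := by
  obtain ⟨q, hq⟩ := ht
  let K := FractionRing R
  have hinj := IsFractionRing.injective R K
  have : CharZero K := charZero_of_injective_algebraMap hinj
  set φ : R →+* K := algebraMap R K with hφ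
  have hsm : ∀ (c : R) (y : E8 R), φ ∘ (c • y) = φ c • (φ ∘ y) := by
    intro c y
    funext j
    simp
  have h1 : ∀ {u : E8 R} {χ : R}, br u p = χ • p → br (φ ∘ u) (φ ∘ p) = φ χ • (φ ∘ p) := by
    intro u χ hu
    rw [← br_map, hu, hsm]
  have h2 := trace_field (K := K) (P := φ ∘ p) (q := q) (x := fun i => φ ∘ x i)
    (w := fun i => φ ∘ w i) (d := φ d) (DimE.cone_map φ hcone) ?_ (fun i => DimE.F1_map.2 (hx i))
    (fun i => ?_) ?_ (h1 hu) (h1 hv)
  · apply hinj
    rw [map_sum, map_mul, map_add, map_mul, map_mul, map_mul, map_ofNat, map_ofNat, kf_map,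
      ← h2]
    refine Finset.sum_congr rfl fun i _ => ?_
    rw [kf_map, br_map, br_map]
  · intro h
    apply hq
    apply hinj
    rw [map_zero]
    exact h
  · rw [← kf_map, hwp, map_zero]
  · intro y hy
    obtain ⟨b, hb⟩ := IsLocalization.exist_integer_multiples_of_finite (nonZeroDivisors R) y
    choose y' hy' using hb
    have hb0 : φ (b : R) ≠ 0 := by
      rw [hφ, Ne, IsFractionRing.to_map_eq_zero_iff]
      exact nonZeroDivisors.ne_zero b.2
    have h3 : φ ∘ y' = φ (b : R) • y := by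
      funext i
      rw [Function.comp_apply, hφ, hy', Pi.smul_apply, Algebra.smul_def, smul_eq_mul]
    have h4 : y' ∈ F1 p := by
      rw [← DimE.F1_map (K := K), ← hφ, h3]
      exact (F1s (φ ∘ p)).smul_mem _ hy
    obtain ⟨r, hr⟩ := hspan y' h4
    refine ⟨(φ (b : R))⁻¹ * φ r, ?_⟩
    have h5 : φ ∘ (d • y') = φ ∘ (∑ i, kf (w i) y' • x i + r • p) := by rw [hr]
    have h6 : φ ∘ (∑ i, kf (w i) y' • x i + r • p) =
        ∑ i, φ (kf (w i) y') • (φ ∘ x i) + φ r • (φ ∘ p) := by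
      funext j
      simp
    rw [hsm, h6, h3] at h5
    have h7 : ∀ i, φ (kf (w i) y') = φ (b : R) * kf (φ ∘ w i) y := by
      intro i
      rw [kf_map, h3, kf_smul_right]
    have h8 : φ (b : R) • (φ d • y) =
        φ (b : R) • (∑ i, kf (φ ∘ w i) y • (φ ∘ x i) + ((φ (b : R))⁻¹ * φ r) • (φ ∘ p)) := by
      rw [smul_comm, h5, smul_add, Finset.smul_sum, smul_smul, ← mul_assoc,
        mul_inv_cancel₀ hb0, one_mul]
      congr 1
      refine Finset.sum_congr rfl fun i _ => ?_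
      rw [h7, mul_smul]
    exact smul_right_injective _ hb0 h8

end domain

end Pool.Agent.Licci
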