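import Pool.Agent.Work.MP_a98e4e_ag.L.Exp

/-!
# LICCI, codimension 6: the invariant form of `e_8`, extremal elements (definitions)

* `kf` is the invariant symmetric form with `(e_a, e_(-a)) = -1` and `(h_q, h_r)` the Cartan matrix
  (recall `[e_a, e_(-a)] = - h_a` in the table), so trace `(ad x)(ad y)` is `60 kf x y`;
* `Cone p`: `(ad p)^2 y = - 2 (p, y) p` for all `y`;
* `Pair p w`: two extremal elements with `(p, w) = 1`; then `h = [p, w]` has `[h, p] = 2 p`,
  `[h, w] = - 2 w`, `(h, h) = 2`, and `ad h` has the eigenvalues `2, 1, 0, -1, -2` on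
  `A p, 56, e_7 + A h, 56, A w`;
* `wq q` is minus the root vector opposite to the root vector `ix q` of `z`-degree `3`, so
  `Pair (eb (ix q)) (wq q)` and more generally `Pair p (c • wq q)` if `p` is extremal and `c` is the
  inverse of the `q`-th coordinate of `p`.
-/

set_option linter.unusedSectionVars false

namespace Pool.Agent.Licci

open scoped BigOperators

/-- the form on basis vectors -/
def kcN (i j : ℕ) : ℤ :=
  bif Nat.blt i 240 then
    bif Nat.blt j 240 then
      (bif Nat.beq (Nat.add (cd i) (cd j)) 1145324612 then -1 else 0) else 0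
  else bif Nat.blt j 240 then 0 else prN (gens.getD (i - 240) 0) (j - 240)

/-- the form on basis vectors -/
def kc (i j : Fin 248) : ℤ := kcN i j

variable {A : Type*} [CommRing A]

/-- the invariant form of `e_8` -/
def kf (x y : E8 A) : A := ∑ i, ∑ j, (kc i j : A) * (x i * y j)

/-- extremal elements -/
def Cone (p : E8 A) : Prop := ∀ y : E8 A, br p (br p y) = (-(2 * kf p y)) • p

/-- two extremal elements with pairing `1` -/
structure Pair (p w : E8 A) : Prop where
  cp : Cone p
  cw : Cone w
  one : kf p w = 1

/-- minus the root vector opposite to `ix q` -/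
def wq (q : Fin 8) : E8 A := - eb (ix (232 + q))

/-- the stabilizer of the line of `p` (all `w` with `[w, p]` and `p` proportional) -/
def F0 (p : E8 A) : Set (E8 A) := {w | ∀ i j, br w p i * p j = br w p j * p i}

/-- the orthogonal complement of `F0 p` -/
def F1 (p : E8 A) : Set (E8 A) := {x | ∀ w ∈ F0 p, kf x w = 0}

end Pool.Agent.Licci
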