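import Pool.Agent.Work.MP_a98e4e_ag.E.Theta

/-!
# LICCI, codimension 6: all vectors of degree `-3` (and `3`) are extremal
-/

set_option linter.unusedSectionVars false

namespace Pool.Agent.Licci

open scoped BigOperators

/-- `[e_g, [e_g', e_j]] = - (e_g, e_j) e_g' - (e_g', e_j) e_g` -/
def clk (g g' j : ℕ) : Bool :=
  zr (lm g (sp g' j) ++ [(g', kcN g j), (g, kcN g' j)])

set_option maxRecDepth 100000 in
theorem clk_neg : (List.range 8).all (fun q => (List.range 8).all (fun r =>
    (List.range 248).all (clk (232 + q) (232 + r)))) = true := by decide +kernel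

set_option maxRecDepth 100000 in
theorem clk_pos : (List.range 8).all (fun q => (List.range 8).all (fun r =>
    (List.range 248).all (clk q r))) = true := by decide +kernel

section

variable {A : Type*} [CommRing A]

theorem clk_spec {g g' : Fin 248} (h : ∀ j < 248, clk g g' j = true) (y : E8 A) :
    br (eb g) (br (eb g') y) = - (kf (eb g) y • eb g' + kf (eb g') y • (eb g : E8 A)) := by
  rw [t_br_sum_right (eb g') y, br_sum_right]
  simp_rw [br_smul_right, t_br_eb3]
  funext l
  rw [Finset.sum_apply]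
  have h1 : ∀ j : Fin 248, (y j • (tev (lm g (sp g' j)) : E8 A)) l =
      - (((kc g j : A) * y j) * (eb g' : E8 A) l + ((kc g' j : A) * y j) * (eb g : E8 A) l) := by
    intro j
    have h2 := zr_spec (h j j.2) l
    rw [cf_append, cf_cons, cf_cons, cf_nil, add_zero] at h2
    rw [Pi.smul_apply, smul_eq_mul, tev, eq_neg_of_add_eq_zero_left h2, eb_apply, eb_apply]
    have h3 : ∀ a : Fin 248, ((a : ℕ) = l) ↔ (l = a) := fun a => ⟨fun e => Fin.ext e.symm, fun e => by rw [e]⟩
    simp only [h3, kc]
    split_ifs <;> push_cast <;> ring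
  rw [Finset.sum_congr rfl fun j _ => h1 j, Pi.neg_apply, Pi.add_apply, Pi.smul_apply,
    Pi.smul_apply, smul_eq_mul, smul_eq_mul, t_kf_eb, t_kf_eb, Finset.sum_neg_distrib,
    Finset.sum_add_distrib, ← Finset.sum_mul, ← Finset.sum_mul]

theorem br_wq_wq (q r : Fin 8) (y : E8 A) :
    br (wq q) (br (wq r) y) = - (kf (wq q) y • wq r + kf (wq r) y • (wq q : E8 A)) := by
  have hq := q.2
  have hr := r.2
  rw [wq, wq, br_neg_left, br_neg_left, br_neg_right, neg_neg, clk_spec (A := A), kf_neg_left,
    kf_neg_left, smul_neg, smul_neg, neg_smul, neg_smul, neg_neg, neg_neg]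
  rw [t_ix_val (by omega), t_ix_val (by omega)]
  intro j hj
  exact all_range (all_range (all_range clk_neg q.2) r.2) hj

theorem br_ix_ix (q r : Fin 8) (y : E8 A) :
    br (eb (ix q)) (br (eb (ix r)) y) =
      - (kf (eb (ix q)) y • eb (ix r) + kf (eb (ix r)) y • (eb (ix q) : E8 A)) := by
  have hq := q.2
  have hr := r.2
  refine clk_spec (A := A) ?_ y
  rw [t_ix_val (by omega), t_ix_val (by omega)]
  intro j hj
  exact all_range (all_range (all_range clk_pos q.2) r.2) hj

theorem t_cone_lin {ι : Type*} [Fintype ι] (v : ι → E8 A) (c : ι → A)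
    (h : ∀ q r y, br (v q) (br (v r) y) = - (kf (v q) y • v r + kf (v r) y • v q)) :
    Cone (∑ q, c q • v q) := by
  intro y
  rw [br_sum_left, kf_sum_left]
  have h1 : ∀ q, br (c q • v q) (br (∑ r, c r • v r) y) =
      -(∑ r, (c q * c r) • (kf (v q) y • v r + kf (v r) y • v q)) := by
    intro q
    rw [br_sum_left, br_sum_right, ← Finset.sum_neg_distrib]
    refine Finset.sum_congr rfl fun r _ => ?_
    rw [br_smul_left, br_smul_left, br_smul_right, h, smul_smul, smul_neg]
  rw [Finset.sum_congr rfl fun q _ => h1 q, Finset.sum_neg_distrib, neg_smul, neg_inj]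
  have h2 : ∑ q, ∑ r, (c q * c r) • (kf (v q) y • v r) =
      (∑ q, kf (c q • v q) y) • ∑ r, c r • v r := by
    rw [Finset.sum_smul]
    refine Finset.sum_congr rfl fun q _ => ?_
    rw [Finset.smul_sum]
    refine Finset.sum_congr rfl fun r _ => ?_
    rw [kf_smul_left, smul_smul, smul_smul]
    congr 1
    ring
  have h3 : ∑ q, ∑ r, (c q * c r) • (kf (v r) y • v q) =
      (∑ q, kf (c q • v q) y) • ∑ r, c r • v r := by
    rw [← h2, Finset.sum_comm]
    refine Finset.sum_congr rfl fun q _ => Finset.sum_congr rfl fun r _ => ?_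
    rw [mul_comm]
  simp only [smul_add, Finset.sum_add_distrib]
  rw [h2, h3, two_mul, add_smul]

/-- every vector of degree `-3` is extremal -/
theorem cone_lin (c : Fin 8 → A) : Cone (∑ q, c q • (wq q : E8 A)) :=
  t_cone_lin _ c br_wq_wq

/-- every vector of degree `3` is extremal -/
theorem cone_lin_top (c : Fin 8 → A) : Cone (∑ q : Fin 8, c q • (eb (ix q) : E8 A)) :=
  t_cone_lin _ c br_ix_ix

/-- the pairing with a vector of degree `-3` -/
theorem kf_lin (c : Fin 8 → A) (p : E8 A) :
    kf p (∑ q, c q • (wq q : E8 A)) = ∑ q, c q * p (ix q) := by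
  rw [kf_sum_right]
  refine Finset.sum_congr rfl fun q _ => ?_
  rw [kf_smul_right, kf_symm, kf_wq]

end

end Pool.Agent.Licci
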