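import Pool.Agent.Work.MP_a98e4e_ag.E.Defs

/-! Kernel check: invariance of the form of `e_8`. -/

set_option linter.unusedSectionVars false

namespace Pool.Agent.Licci

/-- pairing of a sparse vector with a basis vector -/
def kl (L : List (ℕ × ℤ)) (k : ℕ) : ℤ := L.foldr (fun p s => p.2 * kcN p.1 k + s) 0

/-- invariance on a triple -/
def iv (i j k : ℕ) : Bool := isz (kl (sp i j) k - kl (sp j k) i)

/-- invariance, checked on triples of weight zero -/
def ivc (i j : ℕ) : Bool :=
  let s := Nat.sub 2290649224 (Nat.add (cd i) (cd j))
  let k := fnd s
  bif Nat.blt k 240 then iv i j k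
  else bif Nat.beq s 1145324612 then (List.range 8).all (fun q => iv i j (240 + q)) else true

set_option maxRecDepth 100000

theorem ivc_all : (List.range 248).all (fun i => (List.range 248).all (fun j => ivc i j)) = true := by
  decide +kernel

end Pool.Agent.Licci
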