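import Pool.Agent.Work.MP_a98e4e_ag.E.Pair

/-!
# LICCI, codimension 6: the local projector onto `F1 p`

`R` a domain, `p` extremal, `e` arbitrary: a linear map `E8 R → F1 p` which is multiplication by
`(p, e) ^ 2` on `F1 p`.
-/

set_option linter.unusedSectionVars false

namespace Pool.Agent.Licci

open scoped BigOperators

variable {R : Type*} [CommRing R]

theorem mem_F0 {p w : E8 R} : w ∈ F0 p ↔ ∀ i j, br w p i * p j = br w p j * p i := Iff.rfl

theorem mem_F1 {p x : E8 R} : x ∈ F1 p ↔ ∀ w ∈ F0 p, kf x w = 0 := Iff.rfl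

theorem F0_of_smul {p w : E8 R} {c : R} (h : br w p = c • p) : w ∈ F0 p := by
  intro i j
  rw [h, Pi.smul_apply, Pi.smul_apply, smul_eq_mul, smul_eq_mul]
  ring

/-- `p_j [w, p] = [w, p]_j p` for `w` in `F0 p` -/
theorem F0_smul {p w : E8 R} (h : w ∈ F0 p) (j : Fin 248) : p j • br w p = br w p j • p := by
  funext i
  rw [Pi.smul_apply, Pi.smul_apply, smul_eq_mul, smul_eq_mul, mul_comm, h i j]

/-- `F1 p` as a submodule -/
def F1s (p : E8 R) : Submodule R (E8 R) where
  carrier := F1 p
  add_mem' := fun {a b} ha hb w hw => by rw [kf_add_left, ha w hw, hb w hw, add_zero]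
  zero_mem' := fun w _ => kf_zero_left w
  smul_mem' := fun c x hx w hw => by rw [kf_smul_left, hx w hw, mul_zero]

theorem mem_F1s {p x : E8 R} : x ∈ F1s p ↔ x ∈ F1 p := Iff.rfl

/-- `F0 p` as a submodule -/
def F0s (p : E8 R) : Submodule R (E8 R) where
  carrier := F0 p
  add_mem' := fun {a b} ha hb i j => by
    rw [br_add_left, Pi.add_apply, Pi.add_apply, add_mul, add_mul, ha i j, hb i j]
  zero_mem' := fun i j => by rw [br_zero_left]; simp
  smul_mem' := fun c x hx i j => by
    rw [br_smul_left, Pi.smul_apply, Pi.smul_apply, smul_eq_mul, smul_eq_mul, mul_assoc, hx i j,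
      mul_assoc]

theorem mem_F0s {p x : E8 R} : x ∈ F0s p ↔ x ∈ F0 p := Iff.rfl

section dom

variable [IsDomain R] [Algebra ℚ R]

theorem two_cancel {x : R} (h : 2 * x = 0) : x = 0 := by
  have h4 : (2 : R) = ((2 : ℕ) : R) := by norm_num
  rw [h4] at h
  exact nat_cancel (by norm_num) h

variable {p : E8 R}

theorem Cone.self_mem_F0 (_ : Cone p) : p ∈ F0 p := F0_of_smul (c := 0) (by rw [br_self, zero_smul])

/-- `(p, w) = 0` for `w` in `F0 p` -/
theorem Cone.kf_F0 (hp : Cone p) {w : E8 R} (hw : w ∈ F0 p) : kf p w = 0 := by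
  by_cases h0 : p = 0
  · rw [h0, kf_zero_left]
  obtain ⟨j, hj⟩ : ∃ j, p j ≠ 0 := by
    by_contra h
    push Not at h
    exact h0 (funext h)
  have h1 : p j • br p (br p w) = 0 := by
    rw [← br_smul_right, br_skew p w, smul_neg, F0_smul hw, br_neg_right, br_smul_right, br_self,
      smul_zero, neg_zero]
  rw [hp w, smul_smul] at h1
  have h2 := congrFun h1 j
  rw [Pi.smul_apply, Pi.zero_apply, smul_eq_mul] at h2
  rcases mul_eq_zero.1 h2 with h3 | h3
  · rcases mul_eq_zero.1 h3 with h4 | h4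
    · exact absurd h4 hj
    · exact two_cancel (neg_eq_zero.1 h4)
  · exact absurd h3 hj

theorem Cone.self_mem_F1 (hp : Cone p) : p ∈ F1 p := fun _ hw => hp.kf_F0 hw

/-- `[p, z]` is in `F0 p` -/
theorem Cone.br_mem_F0 (hp : Cone p) (z : E8 R) : br p z ∈ F0 p := by
  refine F0_of_smul (c := 2 * kf p z) ?_
  rw [br_skew, hp z, neg_smul, neg_neg]

/-- `[p, z]` is in `F1 p` if `(p, z) = 0` -/
theorem Cone.br_mem_F1 (hp : Cone p) {z : E8 R} (hz : kf p z = 0) : br p z ∈ F1 p := by
  intro w hw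
  by_cases h0 : p = 0
  · rw [h0, br_zero_left, kf_zero_left]
  obtain ⟨j, hj⟩ : ∃ j, p j ≠ 0 := by
    by_contra h
    push Not at h
    exact h0 (funext h)
  have h1 : p j * kf (br p z) w = 0 := by
    rw [kf_br_left, br_skew p w, kf_neg_right, neg_neg, ← kf_smul_right, F0_smul hw, kf_smul_right,
      kf_symm, hz, mul_zero]
  exact (mul_eq_zero.1 h1).resolve_left hj

theorem Cone.br_F1 (hp : Cone p) {x : E8 R} (hx : x ∈ F1 p) : br p x = 0 := by
  refine kf_ext' fun z => ?_
  rw [kf_br_left, hx _ (hp.br_mem_F0 z), kf_zero_left, neg_zero]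

theorem Cone.kf_F1 (hp : Cone p) {x : E8 R} (hx : x ∈ F1 p) : kf p x = 0 := by
  rw [kf_symm]
  exact hx _ hp.self_mem_F0

/-- the test element for `br_br_F1` -/
theorem Cone.test_mem (hp : Cone p) (e z : E8 R) :
    br (br z p) e - kf p e • z - kf z p • e ∈ F0 p := by
  refine F0_of_smul (c := kf p (br e z)) ?_
  have h1 : br (br (br z p) e) p = - br p (br e (br p z)) := by
    rw [br_skew (br (br z p) e) p, br_skew z p, br_neg_left, br_neg_right, neg_neg,
      br_skew (br p z) e, br_neg_right]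
  rw [br_sub_left, br_sub_left, h1, hp.PEP e z, br_smul_left, br_smul_left, kf_symm z p,
    br_skew z p, br_skew e p]
  module

/-- `[p, [e, x]] = (p, e) x + (x, e) p` for `x` in `F1 p` -/
theorem Cone.br_br_F1 (hp : Cone p) (e : E8 R) {x : E8 R} (hx : x ∈ F1 p) :
    br p (br e x) = kf p e • x + kf x e • p := by
  refine kf_ext fun z => ?_
  have h1 := hx _ (hp.test_mem e z)
  rw [kf_sub_right, kf_sub_right, kf_smul_right, kf_smul_right] at h1
  have h2 : kf z (br p (br e x)) = kf x (br (br z p) e) := by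
    rw [← kf_inv z p, ← kf_inv (br z p) e x, kf_symm]
  rw [h2, kf_add_right, kf_smul_right, kf_smul_right, kf_symm z x]
  linear_combination h1

/-- the local projector -/
def PiL (e p : E8 R) : E8 R →ₗ[R] E8 R where
  toFun y := br p (kf p e • br e y - kf p (br e y) • e) - (kf p e * kf y e) • p
  map_add' y y' := by
    simp only [br_add_right, kf_add_right, kf_add_left, smul_add, add_smul, mul_add, br_sub_right]
    abel
  map_smul' c y := by
    simp only [br_smul_right, kf_smul_right, kf_smul_left, RingHom.id_apply, smul_sub, br_sub_right,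
      smul_smul]
    congr 2
    · congr 1
      rw [mul_comm]
    · ring

theorem PiL_apply (e p y : E8 R) :
    PiL e p y = br p (kf p e • br e y - kf p (br e y) • e) - (kf p e * kf y e) • p := rfl

theorem Cone.PiL_mem (hp : Cone p) (e y : E8 R) : PiL e p y ∈ F1 p := by
  rw [PiL_apply, ← mem_F1s]
  refine sub_mem (hp.br_mem_F1 ?_) ((F1s p).smul_mem _ hp.self_mem_F1)
  rw [kf_sub_right, kf_smul_right, kf_smul_right]
  ring

theorem Cone.PiL_F1 (hp : Cone p) (e : E8 R) {x : E8 R} (hx : x ∈ F1 p) :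
    PiL e p x = (kf p e) ^ 2 • x := by
  have h1 : kf p (br e x) = 0 := by
    rw [← kf_inv, kf_symm]
    exact hx _ (hp.br_mem_F0 e)
  rw [PiL_apply, h1, zero_smul, sub_zero, br_smul_right, hp.br_br_F1 e hx, smul_add, smul_smul,
    smul_smul]
  rw [add_sub_cancel_right, sq]

/-- the local projector for a coordinate of `p` -/
theorem Cone.PiL_db (hp : Cone p) (j : Fin 248) {x : E8 R} (hx : x ∈ F1 p) :
    PiL (db j) p x = (p j) ^ 2 • x := by
  rw [hp.PiL_F1 (db j) hx, kf_symm, kf_db_apply]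

end dom

end Pool.Agent.Licci
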