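import Pool.Agent.Work.MP_a98e4e_ag.E.ConeLin
import Pool.Agent.Work.MP_a98e4e_ag.E.Dim

/-!
# LICCI, codimension 6: the trace form on `F1 p / p`

For dual families `x i ∈ F1 p`, `w i ⊥ p` with `kf (w i) (x j) = c δ_ij` and `u`, `v` in the
stabilizer of the line of `p`, with eigenvalues `χ`, `χ'`:
`∑ i, kf (w i) [v, [u, x i]] = c (12 kf u v + 8 χ χ')`.
-/

set_option linter.unusedSectionVars false

namespace Pool.Agent.Licci

open scoped BigOperators

/-- weights `b_q ≥ i` -/
def GeW {A : Type*} [CommRing A] (q : Fin 8) (i : ℤ) (x : E8 A) : Prop :=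
  ∀ m, wtg q m < i → x m = 0

theorem t_kc_wtg (q : Fin 8) {m n : Fin 248} (h : kc m n ≠ 0) : wtg q m + wtg q n = 0 := by
  have h1 := kcN_wt m.2 n.2 h
  have h2 : cd m + cd n = cd 240 + off := by
    rw [h1, cd_cartan (le_refl 240) (by norm_num)]
  have h3 := dg_add m.2 n.2 (show (240 : ℕ) < 248 by norm_num) h2 q q.2
  have h4 := t_wtN_cartan (le_refl 240) (show (240 : ℕ) < 248 by norm_num) q
  unfold wtg wtN
  unfold wtN at h4
  omega

/-- the weights of the dual basis -/
theorem db_chk : (List.range 248).all (fun i => (dbN i).all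
    (fun p => Nat.beq (Nat.add (cd i) (cd p.1)) 1145324612 && Nat.blt p.1 248)) = true := by
  decide +kernel

theorem card_g1 (q : Fin 8) : Fintype.card {k : Fin 248 // wtg q k = 1} = 56 := by
  have h1 := t_sum_g1 q (fun _ => 1)
  have h2 : ((g1 q).map (fun _ : ℕ => (1 : ℤ))).sum = 56 := by
    revert q
    intro q _
    fin_cases q <;> rfl
  rw [h2, Finset.sum_const, nsmul_eq_mul, mul_one] at h1
  rw [Fintype.card_subtype]
  exact_mod_cast h1.symm

section ring

variable {A : Type*} [CommRing A] {q : Fin 8}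

theorem sum_g1' (f : Fin 248 → A) :
    ∑ k with wtg q k = 1, f k = ∑ k : {k : Fin 248 // wtg q k = 1}, f k := by
  refine Finset.sum_bij (fun k hk => ⟨k, (Finset.mem_filter.1 hk).2⟩) ?_ ?_ ?_ ?_
  · intro k hk
    simp
  · intro a _ b _ h
    exact congrArg Subtype.val h
  · rintro ⟨b, hb⟩ _
    exact ⟨b, by simp [hb], rfl⟩
  · intro a _
    rfl

theorem sum_g1 {f : Fin 248 → A} (h : ∀ k, wtg q k ≠ 1 → f k = 0) :
    ∑ k, f k = ∑ k : {k : Fin 248 // wtg q k = 1}, f k := by
  rw [← sum_g1']
  refine (Finset.sum_subset (Finset.filter_subset _ _) fun k _ hk => h k fun h1 => hk ?_).symm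
  exact Finset.mem_filter.2 ⟨Finset.mem_univ _, h1⟩

theorem GeW.br {i j : ℤ} {x y : E8 A} (hx : GeW q i x) (hy : GeW q j y) : GeW q (i + j) (br x y) := by
  have hd : ∀ a b c, sc a b c ≠ 0 → (fun m => - wtg q m) a + (fun m => - wtg q m) b =
      (fun m => - wtg q m) c := by
    intro a b c h
    have := sc_wtg q h
    simp only
    omega
  have h1 : Le (fun m => - wtg q m) (-i) x := fun m hm => hx m (by
    have hm' : -i < - wtg q m := hm
    omega)
  have h2 : Le (fun m => - wtg q m) (-j) y := fun m hm => hy m (by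
    have hm' : -j < - wtg q m := hm
    omega)
  intro m hm
  refine Le.br hd h1 h2 m ?_
  show -i + -j < - wtg q m
  omega

theorem GeW.mono {i j : ℤ} (h : j ≤ i) {x : E8 A} (hx : GeW q i x) : GeW q j x :=
  fun m hm => hx m (lt_of_lt_of_le hm h)

theorem GeW.sub {i : ℤ} {x y : E8 A} (hx : GeW q i x) (hy : GeW q i y) : GeW q i (x - y) :=
  fun m hm => by rw [Pi.sub_apply, hx m hm, hy m hm, sub_zero]

theorem gew_eb (k : Fin 248) : GeW q (wtg q k) (eb k : E8 A) := by
  intro m hm
  rw [eb_apply, if_neg]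
  rintro rfl
  exact absurd hm (lt_irrefl _)

theorem gew_all (x : E8 A) : GeW q (-2) x := fun m hm => by
  have := wtg_ge q m
  omega

theorem kf_gew {i j : ℤ} (hij : 0 < i + j) {x y : E8 A} (hx : GeW q i x) (hy : GeW q j y) :
    kf x y = 0 := by
  rw [kf_def]
  refine Finset.sum_eq_zero fun m _ => Finset.sum_eq_zero fun n _ => ?_
  by_cases h : kc m n = 0
  · rw [h, Int.cast_zero, zero_mul]
  · have h1 := t_kc_wtg q h
    by_cases hm : wtg q m < i
    · rw [hx m hm, zero_mul, mul_zero]
    · rw [hy n (by omega), mul_zero, mul_zero]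

theorem gew_db {m : Fin 248} (hm : wtg q m ≤ 0) : GeW q 0 (db m : E8 A) := by
  intro k hk
  have h1 : (db m : E8 A) k = (cf (dbN m) k : A) := by
    rw [db, Finset.sum_apply, Finset.sum_eq_single k]
    · rw [Pi.smul_apply, eb_apply, if_pos rfl, smul_eq_mul, mul_one]
    · intro j _ hj
      rw [Pi.smul_apply, eb_apply, if_neg (fun h => hj h.symm), smul_zero]
    · intro h
      exact absurd (Finset.mem_univ k) h
  rw [h1, cf_eq_zero_of_notMem, Int.cast_zero]
  intro p hp h2
  have h3 := all_range db_chk m.2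
  rw [List.all_eq_true] at h3
  have h4 := h3 p hp
  rw [Bool.and_eq_true, Nat.beq_eq, h2] at h4
  have h5 : cd m + cd k = cd 240 + off := by
    rw [cd_cartan (le_refl 240) (by norm_num)]
    exact h4.1
  have h6 := dg_add m.2 k.2 (show (240 : ℕ) < 248 by norm_num) h5 q q.2
  have h7 := t_wtN_cartan (le_refl 240) (show (240 : ℕ) < 248 by norm_num) q
  unfold wtg wtN at hm hk
  unfold wtN at h7
  omega

/-- weights `≥ 2` -/
theorem GeW.top {x : E8 A} (hx : GeW q 2 x) : x = x (ix q) • eb (ix q) := by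
  funext m
  rw [Pi.smul_apply, eb_apply, smul_eq_mul]
  by_cases h : m = ix q
  · rw [if_pos h, h, mul_one]
  · rw [if_neg h, mul_zero]
    refine hx m ?_
    have h1 := wtg_le q m
    have h2 : wtg q m ≠ 2 := fun h3 => h ((thk_spec q m).1 h3)
    omega

/-- the part of weight `0` -/
def tz0 (q : Fin 8) (x : E8 A) : E8 A := fun m => if wtg q m = 0 then x m else 0

theorem tz0_zero (x : E8 A) {m : Fin 248} (hm : wtg q m ≠ 0) : tz0 q x m = 0 := if_neg hm

theorem gew_tz0 (x : E8 A) : GeW q 0 (tz0 q x) := fun _ hm => tz0_zero x (ne_of_lt hm)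

theorem gew_sub_tz0 {x : E8 A} (hx : GeW q 0 x) : GeW q 1 (x - tz0 q x) := by
  intro m hm
  rw [Pi.sub_apply]
  by_cases h : wtg q m = 0
  · rw [tz0, if_pos h, sub_self]
  · rw [tz0_zero x h, sub_zero]
    exact hx m (by omega)

/-- the trace formula for elements of weights `≥ 0` -/
theorem tr0' {a b : E8 A} (ha : GeW q 0 a) (hb : GeW q 0 b) :
    (∑ k with wtg q k = 1, br a (br b (eb k)) k) =
      12 * kf a b + 8 * (kf a (hq q) * kf b (hq q)) := by
  have hh : GeW q 0 (hq q : E8 A) := by
    have h1 := (gew_eb (A := A) (q := q) (ix q)).br (gew_all (q := q) (wq q : E8 A))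
    rw [wtg_top] at h1
    exact h1
  have h1 : ∀ k : Fin 248, wtg q k = 1 → br a (br b (eb k)) k =
      br (tz0 q a) (br (tz0 q b) (eb k)) k := by
    intro k hk
    have e1 : br a (br b (eb k)) = br (tz0 q a) (br (tz0 q b) (eb k)) +
        br (tz0 q a) (br (b - tz0 q b) (eb k)) + br (a - tz0 q a) (br b (eb k)) := by
      rw [br_sub_left a, br_sub_left b, br_sub_right]
      abel
    have e2 : br (tz0 q a) (br (b - tz0 q b) (eb k)) k = (0 : A) := by
      refine ((gew_tz0 a).br ((gew_sub_tz0 hb).br (gew_eb k))) k ?_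
      omega
    have e3 : br (a - tz0 q a) (br b (eb k)) k = (0 : A) := by
      refine ((gew_sub_tz0 ha).br (hb.br (gew_eb k))) k ?_
      omega
    rw [e1, Pi.add_apply, Pi.add_apply, e2, e3, add_zero, add_zero]
  have h2 : kf a b = kf (tz0 q a) (tz0 q b) := by
    have e1 := kf_gew (by norm_num) (gew_tz0 a) (gew_sub_tz0 hb)
    have e2 := kf_gew (by norm_num) (gew_sub_tz0 ha) hb
    rw [kf_sub_right] at e1
    rw [kf_sub_left] at e2
    linear_combination e1 + e2
  have h3 : ∀ {z : E8 A}, GeW q 0 z → kf z (hq q) = kf (tz0 q z) (hq q) := by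
    intro z hz
    have e2 := kf_gew (by norm_num) (gew_sub_tz0 hz) hh
    rw [kf_sub_left] at e2
    linear_combination e2
  rw [h2, h3 ha, h3 hb, ← tr0 q (tz0 q a) (tz0 q b) (fun m hm => tz0_zero a hm)
    (fun m hm => tz0_zero b hm)]
  refine Finset.sum_congr rfl fun k hk => ?_
  rw [Finset.mem_filter] at hk
  exact h1 k hk.2

theorem br_top_of_gew {z : E8 A} (hz : GeW q 0 z) :
    ∃ c : A, br z (eb (ix q)) = c • eb (ix q) := by
  have h1 := hz.br (gew_eb (q := q) (ix q))
  rw [wtg_top, zero_add] at h1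
  exact ⟨_, h1.top⟩

end ring

section field

variable {K : Type*} [Field K] [CharZero K] {q : Fin 8}

/-- the stabilizer in standard position -/
theorem gew_of_br {u : E8 K} {χ : K} (h : br u (eb (ix q)) = χ • eb (ix q)) : GeW q 0 u := by
  intro m hm
  have h1 : br (wq q) (br u (eb (ix q))) = br (br (wq q) u) (eb (ix q)) + br (hq q) u := by
    rw [jacobi, br_skew (wq q) (eb (ix q)), br_neg_right, br_skew u, neg_neg]
    rfl
  rw [h, br_smul_right, br_skew (wq q)] at h1
  have hh : Le (wtg q) 0 (hq q : E8 K) := by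
    have h2 : Le (wtg q) 2 (eb (ix q) : E8 K) := fun m hm => by
      have := wtg_le q m
      omega
    have h3 := le_wq q (1 : K)
    rw [one_smul] at h3
    exact Le.br (fun i j k h => sc_wtg q h) h2 h3
  have hh' : GeW q 0 (hq q : E8 K) := by
    have h1 := (gew_eb (A := K) (q := q) (ix q)).br (gew_all (q := q) (wq q : E8 K))
    rw [wtg_top] at h1
    exact h1
  have h2 := congrFun h1 m
  rw [Pi.add_apply, br_hq] at h2
  have h3 : br (br (wq q) u) (eb (ix q)) m = 0 := by
    have h4 := (gew_all (q := q) (br (wq q) u)).br (gew_eb (q := q) (ix q))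
    rw [wtg_top] at h4
    exact h4 m (by omega)
  have h5 : (χ • -(br (eb (ix q)) (wq q : E8 K))) m = 0 := by
    rw [Pi.smul_apply, Pi.neg_apply]
    have : br (eb (ix q)) (wq q) m = (0 : K) := hh' m hm
    rw [this, neg_zero, smul_zero]
  rw [h5, h3, zero_add] at h2
  exact t_int_cancel (n := wtg q m) (by omega) h2.symm

/-- the trace identity in standard position -/
theorem std_trace {x w : Fin 56 → E8 K} {c : K} (hc : c ≠ 0) (hx : ∀ i, GeW q 1 (x i))
    (hw : ∀ i, kf (w i) (eb (ix q)) = 0) (hwx : ∀ i j, kf (w i) (x j) = if i = j then c else 0)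
    {u v : E8 K} (hu : GeW q 0 u) (hv : GeW q 0 v) :
    ∑ i, kf (w i) (br v (br u (x i))) =
      c * (12 * kf u v + 8 * (kf u (hq q) * kf v (hq q))) := by
  classical
  -- expansion of the pairing
  have hexp : ∀ i (y : E8 K), GeW q 1 y →
      kf (w i) y = ∑ k : {k : Fin 248 // wtg q k = 1}, y k * kf (w i) (eb k) := by
    intro i y hy
    have h1 : kf (w i) y = ∑ k : Fin 248, y k * kf (w i) (eb k) := by
      conv_lhs => rw [E8.eq_sum y, kf_sum_right]
      simp only [kf_smul_right]
    rw [h1]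
    refine sum_g1 fun k hk => ?_
    by_cases h3 : wtg q k < 1
    · rw [hy k h3, zero_mul]
    · have h4 : wtg q k = 2 := by
        have := wtg_le q k
        omega
      rw [(thk_spec q k).1 h4, hw, mul_zero]
  let Q : Matrix (Fin 56) {k : Fin 248 // wtg q k = 1} K := Matrix.of fun i k => kf (w i) (eb k)
  let P : Matrix {k : Fin 248 // wtg q k = 1} (Fin 56) K := Matrix.of fun k i => x i k
  have hQP : (c⁻¹ • Q) * P = 1 := by
    ext i j
    rw [Matrix.smul_mul, Matrix.smul_apply, Matrix.mul_apply, Matrix.one_apply]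
    have h1 := hexp i (x j) (hx j)
    rw [hwx] at h1
    have h2 : ∑ k, Q i k * P k j = if i = j then c else 0 := by
      rw [h1]
      exact Finset.sum_congr rfl fun k _ => mul_comm _ _
    rw [h2]
    split_ifs
    · rw [smul_eq_mul, inv_mul_cancel₀ hc]
    · rw [smul_zero]
  have hPQ : P * (c⁻¹ • Q) = 1 := by
    have e : {k : Fin 248 // wtg q k = 1} ≃ Fin 56 := Fintype.equivFinOfCardEq (card_g1 q)
    exact (Matrix.mul_eq_one_comm_of_equiv e.symm).1 hQP
  have hPQ' : ∀ k l, ∑ i, P k i * Q i l = if k = l then c else 0 := by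
    intro k l
    have h1 := congrFun (congrFun hPQ k) l
    rw [Matrix.mul_smul, Matrix.smul_apply, Matrix.mul_apply, Matrix.one_apply, smul_eq_mul] at h1
    have h2 : c * (c⁻¹ * ∑ i, P k i * Q i l) = c * (if k = l then 1 else 0) := by rw [h1]
    rw [← mul_assoc, mul_inv_cancel₀ hc, one_mul] at h2
    rw [h2]
    split_ifs <;> simp
  -- the operator
  have hT : ∀ {y : E8 K} {j : ℤ}, GeW q j y → GeW q j (br v (br u y)) := by
    intro y j hy
    have := hv.br (hu.br hy)
    rwa [zero_add, zero_add] at this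
  have hTx : ∀ i (k : {k : Fin 248 // wtg q k = 1}), br v (br u (x i)) k =
      ∑ l : {k : Fin 248 // wtg q k = 1}, x i l * br v (br u (eb l)) k := by
    intro i k
    have h1 : br v (br u (x i)) (k : Fin 248) =
        ∑ l : Fin 248, x i l * br v (br u (eb l)) k := by
      conv_lhs => rw [E8.eq_sum (x i), br_sum_right, br_sum_right]
      rw [Finset.sum_apply]
      refine Finset.sum_congr rfl fun l _ => ?_
      rw [br_smul_right, br_smul_right, Pi.smul_apply, smul_eq_mul]
    rw [h1]
    refine sum_g1 fun l hl => ?_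
    by_cases h3 : wtg q l < 1
    · rw [hx i l h3, zero_mul]
    · have h4 : wtg q l = 2 := by
        have := wtg_le q l
        omega
      have h5 : br v (br u (eb l)) k = (0 : K) := by
        refine hT (gew_eb (q := q) l) k ?_
        rw [k.2, h4]
        norm_num
      rw [h5, mul_zero]
  have h1 : ∑ i, kf (w i) (br v (br u (x i))) =
      ∑ k : {k : Fin 248 // wtg q k = 1}, ∑ l : {k : Fin 248 // wtg q k = 1},
        br v (br u (eb l)) k * ∑ i, P l i * Q i k := by
    have h2 : ∀ i, kf (w i) (br v (br u (x i))) =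
        ∑ k : {k : Fin 248 // wtg q k = 1}, ∑ l : {k : Fin 248 // wtg q k = 1},
          br v (br u (eb l)) k * (P l i * Q i k) := by
      intro i
      rw [hexp i _ (hT (hx i))]
      refine Finset.sum_congr rfl fun k _ => ?_
      rw [hTx, Finset.sum_mul]
      refine Finset.sum_congr rfl fun l _ => ?_
      simp only [P, Q, Matrix.of_apply]
      ring
    rw [Finset.sum_congr rfl fun i _ => h2 i, Finset.sum_comm]
    refine Finset.sum_congr rfl fun k _ => ?_
    rw [Finset.sum_comm]
    refine Finset.sum_congr rfl fun l _ => ?_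
    rw [Finset.mul_sum]
  have h3 : ∑ k : {k : Fin 248 // wtg q k = 1}, ∑ l : {k : Fin 248 // wtg q k = 1},
        br v (br u (eb l)) k * ∑ i, P l i * Q i k =
      c * ∑ k : {k : Fin 248 // wtg q k = 1}, br v (br u (eb k)) k := by
    rw [Finset.mul_sum]
    refine Finset.sum_congr rfl fun k _ => ?_
    rw [Finset.sum_eq_single k]
    · rw [hPQ', if_pos rfl, mul_comm]
    · intro l _ hl
      rw [hPQ', if_neg hl, mul_zero]
    · intro h
      exact absurd (Finset.mem_univ k) h
  have h4 : ∑ k : {k : Fin 248 // wtg q k = 1}, br v (br u (eb k)) (k : Fin 248) =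
      ∑ k with wtg q k = 1, br v (br u (eb k)) k :=
    (sum_g1' (q := q) (fun k => br v (br u (eb k)) k)).symm
  rw [h1, h3, h4, tr0' hv hu, kf_symm v u]
  ring

theorem cone_smul {A : Type*} [CommRing A] {p : E8 A} (h : Cone p) (c : A) : Cone (c • p) := by
  intro y
  rw [br_smul_left, br_smul_left, br_smul_right, h y, kf_smul_left, smul_smul, smul_smul,
    smul_smul]
  congr 1
  ring

/-- the trace identity over a field -/
theorem t_trace_field {p : E8 K} (hp : Cone p) (hq : p (ix q) ≠ 0) {x w : Fin 56 → E8 K} {c : K}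
    (hc : c ≠ 0) (hx : ∀ i, x i ∈ F1 p) (hw : ∀ i, kf p (w i) = 0)
    (hwx : ∀ i j, kf (w i) (x j) = if i = j then c else 0)
    {u v : E8 K} {χ χ' : K} (hu : br u p = χ • p) (hv : br v p = χ' • p) :
    ∑ i, kf (w i) (br v (br u (x i))) = c * (12 * kf u v + 8 * χ * χ') := by
  have hpair : Pair p ((p (ix q))⁻¹ • wq q) :=
    ⟨hp, cone_smul (cone_wq q) _, by
      rw [kf_smul_right, kf_symm, kf_wq, inv_mul_cancel₀ hq]⟩
  obtain ⟨θ, haut, -, hθ⟩ := exists_theta hpair
  set e : E8 K := eb (ix q) with he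
  set d : K := p (ix q) with hd
  choose x' hx' using fun i => haut.bij.2 (x i)
  choose w' hw' using fun i => haut.bij.2 (w i)
  obtain ⟨u', hu'⟩ := haut.bij.2 u
  obtain ⟨v', hv'⟩ := haut.bij.2 v
  have hbr : ∀ {z : E8 K} {a : K}, br z e = a • e → br (θ z) p = a • p := by
    intro z a h
    rw [← hθ, ← haut.map_br, br_smul_right, h, smul_comm, map_smul]
  have hbr' : ∀ {z : E8 K} {a : K}, br (θ z) p = a • p → br z e = a • e := by
    intro z a h
    have h1 : θ (d • br z e) = θ (d • (a • e)) := by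
      rw [← br_smul_right, haut.map_br, hθ, h, smul_comm, map_smul, hθ]
    have h2 := haut.bij.1 h1
    have h3 : d⁻¹ • (d • br z e) = d⁻¹ • (d • (a • e)) := by rw [h2]
    rwa [smul_smul, smul_smul, inv_mul_cancel₀ hq, one_smul, one_smul] at h3
  have hX : ∀ i, GeW q 1 (x' i) := by
    intro i m hm
    have h1 : x' i m = kf (x' i) (db m) := by rw [kf_symm, kf_db_apply]
    rw [h1]
    obtain ⟨a, ha⟩ := br_top_of_gew (gew_db (A := K) (show wtg q m ≤ 0 by omega))
    have h2 := hx i _ (DimE.mem_F0_of a (hbr ha))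
    rwa [← hx', haut.kf_kf] at h2
  have hW : ∀ i, kf (w' i) e = 0 := by
    intro i
    have h1 := hw i
    rw [← hθ, ← hw', haut.kf_kf, kf_smul_left, kf_symm] at h1
    exact (mul_eq_zero.1 h1).resolve_left hq
  have hWX : ∀ i j, kf (w' i) (x' j) = if i = j then c else 0 := by
    intro i j
    rw [← haut.kf_kf, hw', hx', hwx]
  rw [← hu'] at hu
  rw [← hv'] at hv
  have hU := hbr' hu
  have hV := hbr' hv
  have key := std_trace hc hX hW hWX (gew_of_br hU) (gew_of_br hV)
  have hchi : ∀ {z : E8 K} {a : K}, br z e = a • e → kf z (Licci.hq q) = a := by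
    intro z a h
    rw [Licci.hq, ← kf_inv, ← he, h, kf_smul_left, (pair_eb q).one, mul_one]
  rw [hchi hU, hchi hV] at key
  have h1 : ∀ i, kf (w i) (br v (br u (x i))) = kf (w' i) (br v' (br u' (x' i))) := by
    intro i
    rw [← hw', ← hx', ← hu', ← hv', ← haut.map_br, ← haut.map_br, haut.kf_kf]
  rw [Finset.sum_congr rfl fun i _ => h1 i, key, ← hu', ← hv', haut.kf_kf]
  ring

end field

section domain

variable {R : Type*} [CommRing R] [IsDomain R] [CharZero R] {p : E8 R}

/-- the trace identity (E10) -/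
theorem trace_fam (hp : Cone p) (ht : ∃ q : Fin 8, p (ix q) ≠ 0) {x w : Fin 56 → E8 R} {c : R}
    (hc : c ≠ 0) (hx : ∀ i, x i ∈ F1 p) (hw : ∀ i, kf p (w i) = 0)
    (hwx : ∀ i j, kf (w i) (x j) = if i = j then c else 0)
    {u v : E8 R} {χ χ' : R} (hu : br u p = χ • p) (hv : br v p = χ' • p) :
    ∑ i, kf (w i) (br v (br u (x i))) = c * (12 * kf u v + 8 * χ * χ') := by
  obtain ⟨q, hq⟩ := ht
  let K := FractionRing R
  have hinj := IsFractionRing.injective R K
  have : CharZero K := charZero_of_injective_algebraMap hinj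
  have hne : ∀ {a : R}, a ≠ 0 → algebraMap R K a ≠ 0 := by
    intro a ha h
    exact ha (hinj (by rw [h, map_zero]))
  have hsm : ∀ {z y : E8 R} {a : R}, br z y = a • y →
      br (algebraMap R K ∘ z) (algebraMap R K ∘ y) = (algebraMap R K a) • (algebraMap R K ∘ y) := by
    intro z y a h
    rw [← br_map, h]
    funext j
    simp only [Function.comp_apply, Pi.smul_apply, smul_eq_mul, map_mul]
  have key := t_trace_field (K := K) (q := q) (p := algebraMap R K ∘ p)
    (x := fun i => algebraMap R K ∘ x i) (w := fun i => algebraMap R K ∘ w i)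
    (c := algebraMap R K c) (DimE.cone_map (algebraMap R K) hp) (hne hq) (hne hc)
    (fun i => DimE.F1_map.2 (hx i)) (fun i => by rw [← kf_map, hw, map_zero])
    (fun i j => by rw [← kf_map, hwx]; split_ifs <;> simp) (hsm hu) (hsm hv)
  apply hinj
  rw [map_sum, map_mul, map_add, map_mul, map_mul, map_mul, kf_map, map_ofNat, map_ofNat, ← key]
  refine Finset.sum_congr rfl fun i _ => ?_
  rw [kf_map, br_map, br_map]

end domain

end Pool.Agent.Licci
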