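import Pool.Agent.Work.MP_a98e4e_ag.E.TrDef

/-! LICCI, codimension 6: kernel checks of `E/TrDef.lean`, charts 4..7 -/

set_option linter.unusedSectionVars false

namespace Pool.Agent.Licci

set_option maxRecDepth 100000

theorem tch_4 : tch 4 = true := by decide +kernel

theorem tch_5 : tch 5 = true := by decide +kernel

theorem tch_6 : tch 6 = true := by decide +kernel

theorem tch_7 : tch 7 = true := by decide +kernel

end Pool.Agent.Licci
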