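import Pool.Agent.Work.MP_a98e4e_ag.E.TrDef

/-! LICCI, codimension 6: kernel checks of `E/TrDef.lean`, weights -/

set_option linter.unusedSectionVars false

namespace Pool.Agent.Licci

set_option maxRecDepth 100000

theorem gcmp_chk : (List.range 8).all
    (fun q => gcmp (fun k => Nat.beq (dg k q) 3) 248 (g1 q).reverse) = true := by decide +kernel

theorem cck_all : (List.range 8).all (fun q => (List.range 248).all
    (fun j => cck q (232 + q) j && cck (232 + q) q j)) = true := by decide +kernel

theorem hck_all : (List.range 8).all (fun q => (List.range 240).all (fun j => hck q j)) = true := by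
  decide +kernel

theorem lck_all : (List.range 8).all (fun q => (sp q (232 + q)).all
    (fun p => Nat.ble 240 p.1 && Nat.blt p.1 248)) = true := by decide +kernel

theorem t_fnd_off : fnd (off + off) = 255 := by decide +kernel

end Pool.Agent.Licci
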