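import Pool.Agent.Work.MP_a98e4e_ag.E.Defs

/-!
# LICCI, codimension 6: kernel checks for the chart `p = e_q`, `q < 8` (definitions)

`g1 q`: the basis vectors of weight `b_q = 1`.  `tch q`: the trace of `(ad a)(ad b)` on their span is
`12 (a, b) + 8 (a, h) (b, h)` for basis vectors `a`, `b` of opposite weights with `b_q = 0`.
-/

set_option linter.unusedSectionVars false

namespace Pool.Agent.Licci

/-- the basis vectors with `b_q = 1` -/
def g1 (q : ℕ) : List ℕ := match q with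
| 0 =>
  [1, 2, 3, 4, 5, 6, 7, 15, 16, 17, 18, 19, 20, 21, 22, 23, 24, 25, 26, 27, 28, 29, 30, 31, 32,
   33, 34, 35, 36, 37, 38, 39, 40, 41, 42, 43, 44, 45, 46, 47, 48, 49, 50, 51, 52, 53, 54, 55,
   56, 92, 93, 94, 95, 96, 97, 98]
| 1 =>
  [0, 2, 3, 4, 5, 6, 7, 9, 10, 11, 12, 13, 14, 21, 22, 23, 24, 25, 26, 27, 28, 29, 30, 31, 32,
   33, 34, 35, 36, 37, 38, 39, 40, 41, 57, 58, 59, 60, 61, 62, 63, 64, 65, 66, 67, 68, 69, 70,
   71, 99, 100, 101, 102, 103, 104, 105]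
| 2 =>
  [0, 1, 3, 4, 5, 6, 7, 8, 10, 11, 12, 13, 14, 16, 17, 18, 19, 20, 26, 27, 28, 29, 30, 31, 32,
   33, 34, 35, 36, 42, 43, 44, 45, 46, 57, 58, 59, 60, 61, 72, 73, 74, 75, 76, 77, 78, 79, 80,
   81, 106, 107, 108, 109, 110, 111, 112]
| 3 =>
  [0, 1, 2, 4, 5, 6, 7, 8, 9, 11, 12, 13, 14, 15, 17, 18, 19, 20, 22, 23, 24, 25, 30, 31, 32,
   33, 34, 35, 37, 42, 47, 48, 49, 50, 57, 62, 63, 64, 65, 72, 73, 74, 75, 82, 83, 84, 85, 86,
   87, 113, 114, 115, 116, 117, 118, 119]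
| 4 =>
  [0, 1, 2, 3, 5, 6, 7, 8, 9, 10, 12, 13, 14, 15, 16, 18, 19, 20, 21, 23, 24, 25, 27, 28, 29,
   33, 34, 35, 38, 43, 47, 51, 52, 53, 58, 62, 66, 67, 68, 72, 76, 77, 78, 82, 83, 84, 88, 89,
   90, 120, 121, 122, 123, 124, 125, 126]
| 5 =>
  [0, 1, 2, 3, 4, 6, 7, 8, 9, 10, 11, 13, 14, 15, 16, 17, 19, 20, 21, 22, 24, 25, 26, 28, 29,
   31, 32, 35, 39, 44, 48, 51, 54, 55, 59, 63, 66, 69, 70, 73, 76, 79, 80, 82, 85, 86, 88, 89,
   91, 127, 128, 129, 130, 131, 132, 133]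
| 6 =>
  [0, 1, 2, 3, 4, 5, 7, 8, 9, 10, 11, 12, 14, 15, 16, 17, 18, 20, 21, 22, 23, 25, 26, 27, 29,
   30, 32, 34, 40, 45, 49, 52, 54, 56, 60, 64, 67, 69, 71, 74, 77, 79, 81, 83, 85, 87, 88, 90,
   91, 134, 135, 136, 137, 138, 139, 140]
| _ =>
  [0, 1, 2, 3, 4, 5, 6, 8, 9, 10, 11, 12, 13, 15, 16, 17, 18, 19, 21, 22, 23, 24, 26, 27, 28,
   30, 31, 33, 41, 46, 50, 53, 55, 56, 61, 65, 68, 70, 71, 75, 78, 80, 81, 84, 86, 87, 89, 90,
   91, 141, 142, 143, 144, 145, 146, 147]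

/-- `∑_(k ∈ L) [m, [n, e_k]]_k` -/
def tLN (L : List ℕ) (m n : ℕ) : ℤ := L.foldr (fun k s => cf (lm m (sp n k)) k + s) 0

/-- `(e_m, h)` for `h = [e_q, - e_(-q)]` -/
def hcN (q m : ℕ) : ℤ := - (sp q (232 + q)).foldr (fun p s => p.2 * kcN m p.1 + s) 0

/-- the trace formula for a pair of basis vectors -/
def tc (L : List ℕ) (q m n : ℕ) : Bool :=
  isz (tLN L m n - (12 * kcN m n + 8 * (hcN q m * hcN q n)))

/-- index of the opposite root -/
def opN (m : ℕ) : ℕ := fnd (Nat.sub 1717986918 (cd m))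

/-- the trace formula for all pairs of opposite weights -/
def tch (q : ℕ) : Bool :=
  (List.range 240).all (fun m => bif Nat.beq (dg m q) 2 then tc (g1 q) q m (opN m) else true)
    && (List.range 8).all (fun m => (List.range 8).all (fun n => tc (g1 q) q (240 + m) (240 + n)))

/-- `(ad e_g)^2 e_j = - 2 (e_g, e_j) e_g`, where `o` is the opposite of `g` -/
def cck (g o j : ℕ) : Bool :=
  bif Nat.beq j o then zr (lm g (sp g j) ++ [(g, 2 * kcN g j)])
  else (lm g (sp g j)).isEmpty && isz (kcN g j)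

/-- `ad h` on the root vectors -/
def hck (q j : ℕ) : Bool :=
  isz ((sp q (232 + q)).foldr (fun p s => p.2 * prN j (p.1 - 240) + s) 0 + wtN j q)

/-- comparison of a list with the reverse of a filtered range -/
def gcmp (p : ℕ → Bool) : ℕ → List ℕ → Bool
  | 0, L => match L with
    | [] => true
    | _ => false
  | (n + 1), L => match L with
    | [] => bif p n then false else gcmp p n []
    | (a :: L') => bif p n then (bif Nat.beq a n then gcmp p n L' else false) else gcmp p n (a :: L')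

end Pool.Agent.Licci
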