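import Pool.Agent.Work.MP_a98e4e_ag.E.TrDef

/-! LICCI, codimension 6: kernel checks of `E/TrDef.lean`, charts 0..3 -/

set_option linter.unusedSectionVars false

namespace Pool.Agent.Licci

set_option maxRecDepth 100000

theorem tch_0 : tch 0 = true := by decide +kernel

theorem tch_1 : tch 1 = true := by decide +kernel

theorem tch_2 : tch 2 = true := by decide +kernel

theorem tch_3 : tch 3 = true := by decide +kernel

end Pool.Agent.Licci
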