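import Pool.Agent.Work.MP_a98e4e_ag.E.Proj
import Pool.Agent.Work.MP_a98e4e_ag.E.Tr0

/-!
# LICCI, codimension 6: the trace identity at an extremal element, base point
-/

set_option linter.unusedSectionVars false

namespace Pool.Agent.Licci

open scoped BigOperators

section pair

variable {A : Type*} [CommRing A] [Algebra ℚ A] {p w : E8 A}

theorem Pair.eigen_one (h : Pair p w) {x : E8 A} (hx : br (br p w) x = x) :
    kf p x = 0 ∧ br p x = 0 ∧ br p (br w x) = x ∧ kf p (br w x) = 0 := by
  have hx1 : br (br p w) x = (1 : A) • x := by rw [hx, one_smul]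
  have hpx : kf p x = 0 := by
    have := kf_eigen h.br_h_p hx1
    have h4 : (2 + 1 : A) = ((3 : ℕ) : A) := by norm_num
    rw [h4] at this
    exact nat_cancel (by norm_num) this
  have hhh : br (br p w) (br p w) = (0 : A) • br p w := by rw [br_self, zero_smul]
  have hhx : kf (br p w) x = 0 := by
    have := kf_eigen hhh hx1
    rwa [zero_add, one_mul] at this
  have hbp : br p x = 0 := by
    have h1 := h.cp.PEP w x
    rw [hpx, ← kf_inv p w x, hhx, h.one, neg_zero, zero_smul, zero_smul, zero_add, zero_add,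
      one_smul] at h1
    have h2 := br_br_skew p w (br p x)
    rw [h.cp x, hpx, mul_zero, neg_zero, zero_smul, br_zero_right, sub_zero, h1,
      br_eigen h.br_h_p hx1] at h2
    have h3 : ((2 : ℕ) : A) • br p x = 0 := by
      have h4 : (2 + 1 : A) • br p x - br p x = 0 := by rw [h2, sub_self]
      rw [← h4]
      push_cast
      module
    exact smul_nat_cancel (by norm_num) h3
  refine ⟨hpx, hbp, ?_, ?_⟩
  · have h1 := br_br_skew p w x
    rw [hbp, br_zero_right, sub_zero, hx] at h1
    exact h1.symm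
  · rw [← kf_inv, hhx]

theorem Pair.eigen_zero (h : Pair p w) {x : E8 A} (hx : br (br p w) x = 0) :
    br x p = kf x (br p w) • p := by
  have hx0 : br (br p w) x = (0 : A) • x := by rw [hx, zero_smul]
  have h1 := br_eigen hx0 h.br_h_p
  rw [zero_add] at h1
  have h2 := h.eigen_two h1
  rw [← kf_inv w x p, kf_symm (br w x) p, ← kf_inv p w x, kf_symm (br p w) x] at h2
  exact h2

variable [IsDomain A]

theorem Pair.mem_F1_one (h : Pair p w) {x : E8 A} (hx : br (br p w) x = x) : x ∈ F1 p := by
  obtain ⟨_, _, h3, h4⟩ := h.eigen_one hx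
  rw [← h3]
  exact h.cp.br_mem_F1 h4

theorem Pair.mem_F1_two (h : Pair p w) {x : E8 A} (hx : br (br p w) x = (2 : A) • x) :
    x ∈ F1 p := by
  rw [h.eigen_two hx]
  exact (F1s p).smul_mem _ h.cp.self_mem_F1

theorem Pair.mem_F0_one (h : Pair p w) {x : E8 A} (hx : br (br p w) x = x) : x ∈ F0 p := by
  refine F0_of_smul (c := 0) ?_
  rw [br_skew, (h.eigen_one hx).2.1, neg_zero, zero_smul]

theorem Pair.mem_F0_two (h : Pair p w) {x : E8 A} (hx : br (br p w) x = (2 : A) • x) :
    x ∈ F0 p := by
  rw [h.eigen_two hx]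
  exact (F0s p).smul_mem _ h.cp.self_mem_F0

theorem Pair.mem_F0_zero (h : Pair p w) {x : E8 A} (hx : br (br p w) x = 0) : x ∈ F0 p :=
  F0_of_smul (h.eigen_zero hx)

end pair

section base

variable {A : Type*} [CommRing A]

theorem br_hq_eb (q : Fin 8) (k : Fin 248) : br (hq q : E8 A) (eb k) = (wtg q k : A) • eb k := by
  funext m
  rw [br_hq, Pi.smul_apply, smul_eq_mul, eb_apply]
  split_ifs with h
  · rw [h]
  · rw [mul_zero, mul_zero]

theorem br_hq_db (q : Fin 8) (k : Fin 248) : br (hq q : E8 A) (db k) = (-(wtg q k : A)) • db k := by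
  refine kf_ext' fun z => ?_
  rw [kf_br_left, kf_db_apply, br_hq, kf_smul_left, kf_db_apply]
  ring

/-- part of weight `s` -/
def wpart (q : Fin 8) (s : ℤ) (x : E8 A) : E8 A := fun m => if wtg q m = s then x m else 0

theorem br_hq_wpart (q : Fin 8) (s : ℤ) (x : E8 A) :
    br (hq q) (wpart q s x) = (s : A) • wpart q s x := by
  funext m
  rw [br_hq, Pi.smul_apply, smul_eq_mul, wpart]
  split_ifs with h
  · rw [h]
  · rw [mul_zero, mul_zero]

theorem kf_wpart {q : Fin 8} {u v : E8 A} (hu : ∀ m, wtg q m < 0 → u m = 0)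
    (hv : ∀ m, wtg q m < 0 → v m = 0) : kf u v = kf (wpart q 0 u) (wpart q 0 v) := by
  rw [kf_def, kf_def]
  refine Finset.sum_congr rfl fun i _ => Finset.sum_congr rfl fun j _ => ?_
  by_cases h : kc i j = 0
  · rw [h, Int.cast_zero, zero_mul, zero_mul]
  · have h1 := kcN_wt i.2 j.2 h
    have h2 : wtg q i + wtg q j = 0 := by
      have h3 := kf_eigen (A := ℚ) (br_hq_eb q i) (br_hq_eb q j)
      rw [kf_eb_eb] at h3
      rcases mul_eq_zero.1 h3 with h4 | h4
      · exact_mod_cast h4
      · exact absurd (by exact_mod_cast h4) h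
    rcases lt_trichotomy (wtg q i) 0 with h3 | h3 | h3
    · rw [hu i h3, zero_mul, mul_zero, wpart, if_neg (by omega), zero_mul, mul_zero]
    · rw [wpart, wpart, if_pos h3, if_pos (by omega)]
    · rw [hv j (by omega), mul_zero, mul_zero, wpart, if_neg (by omega), zero_mul, mul_zero]

/-- the diagonal coefficients of `(ad v) (ad u)` depend on the parts of weight zero only -/
theorem br_br_wpart {q : Fin 8} {u v : E8 A} (hu : ∀ m, wtg q m < 0 → u m = 0)
    (hv : ∀ m, wtg q m < 0 → v m = 0) (k : Fin 248) :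
    br v (br u (eb k)) k = br (wpart q 0 v) (br (wpart q 0 u) (eb k)) k := by
  have hd : ∀ i j k, sc i j k ≠ 0 → (-wtg q i) + (-wtg q j) = -wtg q k := by
    intro i j k h
    have := sc_wtg q h
    omega
  have e0 : ∀ {x : E8 A}, (∀ m, wtg q m < 0 → x m = 0) → Le (fun m => -wtg q m) 0 x := by
    intro x hx m hm
    exact hx m (by have h1 : 0 < -wtg q m := hm; omega)
  have e1 : ∀ x : E8 A, Le (fun m => -wtg q m) 0 (wpart q 0 x) := by
    intro x m hm
    have h1 : 0 < -wtg q m := hm
    rw [wpart, if_neg (by omega)]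
  have e2 : Le (fun m => -wtg q m) (-wtg q k) (eb k : E8 A) := by
    intro m hm
    rw [eb_apply, if_neg]
    intro h
    rw [h] at hm
    exact lt_irrefl _ hm
  have e3 : ∀ x : E8 A, ∀ m, -wtg q m = 0 → x m = wpart q 0 x m := by
    intro x m hm
    rw [wpart, if_pos (by omega)]
  have h1 := Le.br hd (e0 hu) e2
  have h2 := Le.br hd (e1 u) e2
  refine br_top hd (a := 0) (b := 0 + -wtg q k) (e0 hv) h1 (e1 v) h2 (fun m hm => e3 v m hm) ?_ k
    (by omega)
  intro m hm
  exact br_top hd (a := 0) (b := -wtg q k) (e0 hu) e2 (e1 u) e2 (fun m hm => e3 u m hm)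
    (fun _ _ => rfl) m hm

variable [Algebra ℚ A] {q : Fin 8} {c c' : A}

theorem dbN_q : ∀ q < 8, dbN q = [(232 + q, -1)] := by decide +kernel

theorem wq_eq_db (q : Fin 8) : (wq q : E8 A) = db (ix q) := by
  have h1 : ((ix q : Fin 248) : ℕ) = q := t_ix_val (by have := q.2; omega)
  funext m
  rw [db, Finset.sum_apply, h1, dbN_q q q.2, wq, Pi.neg_apply, eb_apply]
  have h2 : ∀ k : Fin 248, ((cf [(232 + (q : ℕ), -1)] k : A) • (eb k : E8 A)) m =
      if k = m then (if m = ix (232 + q) then -1 else 0) else 0 := by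
    intro k
    rw [Pi.smul_apply, smul_eq_mul, eb_apply, cf_cons, cf_nil, add_zero]
    by_cases hk : k = m
    · subst hk
      rw [if_pos rfl, if_pos rfl, mul_one]
      by_cases hq : k = ix (232 + q)
      · rw [if_pos hq, if_pos (by rw [hq, t_ix_val (by have := q.2; omega)])]
        simp
      · rw [if_neg hq, if_neg]
        · simp
        · intro h
          exact hq (Fin.ext (by rw [t_ix_val (by have := q.2; omega)]; exact h.symm))
    · have hk' : ¬ m = k := fun h => hk h.symm
      rw [if_neg hk', if_neg hk, mul_zero]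
  rw [Finset.sum_congr rfl fun k _ => h2 k]
  by_cases hm : m = ix (232 + q)
  · simp [hm]
  · simp [hm]

theorem kf_wq' (q : Fin 8) (x : E8 A) : kf x (wq q) = x (ix q) := by
  rw [wq_eq_db, kf_symm, kf_db_apply]

theorem wtg_ix : ∀ q : Fin 8, wtg q (ix q) = 2 := by decide +kernel

theorem pair_base (hc : c * c' = 1) : Pair (c' • eb (ix q) : E8 A) (c • wq q) := by
  have h := pair_eb (A := A) q
  refine ⟨fun y => ?_, fun y => ?_, ?_⟩
  · rw [br_smul_left, br_smul_left, br_smul_right, h.cp y, kf_smul_left, smul_smul, smul_smul,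
      smul_smul]
    congr 1
    ring
  · rw [br_smul_left, br_smul_left, br_smul_right, h.cw y, kf_smul_left, smul_smul, smul_smul,
      smul_smul]
    congr 1
    ring
  · rw [kf_smul_left, kf_smul_right, h.one, mul_one, mul_comm, hc]

theorem br_base (hc : c * c' = 1) : br (c' • eb (ix q) : E8 A) (c • wq q) = hq q := by
  rw [br_smul_left, br_smul_right, smul_smul, mul_comm c' c, hc, one_smul, hq]

variable [IsDomain A]

theorem F0_base (hc : c * c' = 1) {u : E8 A} (hu : u ∈ F0 (c' • eb (ix q) : E8 A)) :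
    ∀ m, wtg q m < 0 → u m = 0 := by
  have hp := pair_base (q := q) hc
  have hb := br_base (q := q) hc
  intro m hm
  have h1 : (db m : E8 A) ∈ F1 (c' • eb (ix q) : E8 A) := by
    have h2 := br_hq_db (A := A) q m
    have h3 := wtg_ge q m
    have h4 : wtg q m = -1 ∨ wtg q m = -2 := by omega
    rcases h4 with h4 | h4
    · refine hp.mem_F1_one ?_
      rw [hb, h2, h4]
      simp
    · refine hp.mem_F1_two ?_
      rw [hb, h2, h4]
      simp
  rw [← kf_db_apply m u]
  exact h1 u hu

theorem F1_base (hc : c * c' = 1) {y : E8 A} (hy : y ∈ F1 (c' • eb (ix q) : E8 A)) :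
    ∀ m, wtg q m ≤ 0 → y m = 0 := by
  have hp := pair_base (q := q) hc
  have hb := br_base (q := q) hc
  intro m hm
  have h1 : (db m : E8 A) ∈ F0 (c' • eb (ix q) : E8 A) := by
    have h2 := br_hq_db (A := A) q m
    have h3 := wtg_ge q m
    have h4 : wtg q m = 0 ∨ wtg q m = -1 ∨ wtg q m = -2 := by omega
    rcases h4 with h4 | h4 | h4
    · refine hp.mem_F0_zero ?_
      rw [hb, h2, h4]
      simp
    · refine hp.mem_F0_one ?_
      rw [hb, h2, h4]
      simp
    · refine hp.mem_F0_two ?_
      rw [hb, h2, h4]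
      simp
  rw [← kf_db_apply m y, kf_symm]
  exact hy _ h1

/-- expansion of an element of `F1` at the base point -/
theorem F1_base_expand (hc : c * c' = 1) {y : E8 A} (hy : y ∈ F1 (c' • eb (ix q) : E8 A)) :
    ∃ r : A, y = (∑ k with wtg q k = 1, y k • eb k) + r • (c' • eb (ix q) : E8 A) := by
  have hp := pair_base (q := q) hc
  have hb := br_base (q := q) hc
  have h1 := F1_base hc hy
  have h2 : y = (∑ k with wtg q k = 1, y k • eb k) + wpart q 2 y := by
    funext m
    rw [Pi.add_apply, Finset.sum_apply]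
    have h3 : (∑ k with wtg q k = 1, (y k • (eb k : E8 A)) m) = if wtg q m = 1 then y m else 0 := by
      rw [Finset.sum_filter]
      have : ∀ k : Fin 248, (if wtg q k = 1 then (y k • (eb k : E8 A)) m else 0) =
          if k = m then (if wtg q m = 1 then y m else 0) else 0 := by
        intro k
        rw [Pi.smul_apply, smul_eq_mul, eb_apply]
        by_cases hk : k = m
        · rw [hk]; simp
        · have hk' : ¬ m = k := fun h => hk h.symm
          simp [hk, hk']
      rw [Finset.sum_congr rfl fun k _ => this k]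
      simp
    rw [h3, wpart]
    have h4 := wtg_le q m
    by_cases h5 : wtg q m ≤ 0
    · rw [h1 m h5]; simp
    · have h6 : wtg q m = 1 ∨ wtg q m = 2 := by omega
      rcases h6 with h6 | h6
      · simp [h6]
      · simp [h6]
  refine ⟨kf (c • wq q) (wpart q 2 y), ?_⟩
  have h3 : br (br (c' • eb (ix q) : E8 A) (c • wq q)) (wpart q 2 y) = (2 : A) • wpart q 2 y := by
    rw [hb, br_hq_wpart]
    norm_num
  rw [← hp.eigen_two h3]
  exact h2

/-- the trace identity at the base point -/
theorem trace_base (hc : c * c' = 1) {u v : E8 A} {χ χ' : A}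
    (hu : br u (c' • eb (ix q)) = χ • (c' • eb (ix q))) (hv : br v (c' • eb (ix q)) = χ' • (c' • eb (ix q))) :
    (∑ k with wtg q k = 1, br v (br u (eb k)) k) = 12 * kf u v + 8 * χ * χ' := by
  have hp := pair_base (q := q) hc
  have hb := br_base (q := q) hc
  have key : ∀ {u : E8 A} {χ : A}, br u (c' • eb (ix q)) = χ • (c' • eb (ix q)) →
      kf (wpart q 0 u) (hq q) = χ := by
    intro u χ hu
    have h0 := F0_base hc (F0_of_smul hu)
    -- the part of weight 2 of [u, p0] is [u0, p0]
    have h1 := hp.eigen_zero (x := wpart q 0 u) (by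
      rw [hb, br_hq_wpart, Int.cast_zero, zero_smul])
    rw [hb] at h1
    have h2 : br (wpart q 0 u) (c' • eb (ix q)) (ix q) = br u (c' • eb (ix q)) (ix q) := by
      have hd : ∀ i j k, sc i j k ≠ 0 → (-wtg q i) + (-wtg q j) = -wtg q k := by
        intro i j k h
        have := sc_wtg q h
        omega
      have h3 := wtg_ix q
      refine (br_top hd (a := 0) (b := -2) (fun m hm => ?_) (fun m hm => ?_) (fun m hm => ?_)
        (fun m hm => ?_) (fun m hm => ?_) (fun m _ => rfl) (ix q) (by rw [h3]; rfl)).symm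
      · have h4 : 0 < -wtg q m := hm
        exact h0 m (by omega)
      · have h4 : -2 < -wtg q m := hm
        rw [Pi.smul_apply, eb_apply, if_neg, smul_zero]
        intro h5
        rw [h5] at h4
        omega
      · have h4 : 0 < -wtg q m := hm
        rw [wpart, if_neg (by omega)]
      · have h4 : -2 < -wtg q m := hm
        rw [Pi.smul_apply, eb_apply, if_neg, smul_zero]
        intro h5
        rw [h5] at h4
        omega
      · rw [wpart, if_pos (by omega)]
    have h4 : (c' • eb (ix q) : E8 A) (ix q) = c' := by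
      rw [Pi.smul_apply, eb_apply, if_pos rfl, smul_eq_mul, mul_one]
    rw [h1, hu, Pi.smul_apply, Pi.smul_apply χ, h4, smul_eq_mul, smul_eq_mul] at h2
    have h3 := congrArg (fun t => t * c) h2
    simp only [mul_assoc] at h3
    rwa [mul_comm c' c, hc, mul_one, mul_one] at h3
  have hu0 := F0_base hc (F0_of_smul hu)
  have hv0 := F0_base hc (F0_of_smul hv)
  rw [Finset.sum_congr rfl fun k _ => br_br_wpart hu0 hv0 k, tr0 q, key hu, key hv,
    kf_wpart hu0 hv0, kf_symm]
  · ring
  · intro m hm
    rw [wpart, if_neg hm]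
  · intro m hm
    rw [wpart, if_neg hm]

end base

end Pool.Agent.Licci
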